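import Pool.Agent.X156.GL.Euler

/-!
# Euler products with integral norms: the rotated law at every point of the plane
-/

set_option autoImplicit false

namespace Pool.Agent.X156.GL

open Complex Filter Topology Set Asymptotics
open Pool.Agent.X287.CR Pool.Agent.W189.ML Pool.Agent.W189.LC Pool.Agent.W187.UR

variable {X : Type} {d : ℕ} {θ : ℝ} {q : X → ℕ} {α : X → Fin d → ℂ}

theorem cpow_nat {n : ℕ} (hn : 2 ≤ n) (s : ℂ) : (n : ℂ) ^ (-s) = Complex.exp (-(s * Real.log n)) := by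
  have h0 : (n : ℂ) ≠ 0 := by exact_mod_cast (by omega)
  rw [Complex.cpow_def_of_ne_zero h0]
  congr 1
  have hl : ((Real.log n : ℝ) : ℂ) = Complex.log (n : ℂ) := by
    rw [Complex.ofReal_log (Nat.cast_nonneg _)]
    push_cast
    rfl
  rw [hl]
  ring

/-- the system -/
theorem es_of (G : CSys θ q α) : ES (1 + θ) (fun v => (q v : ℝ)) α where
  cnt := G.cnt
  gap := ⟨2, by norm_num, fun x => by exact_mod_cast G.two_le x⟩
  le := fun v i => by
    have h1 : (1 : ℝ) ≤ q v := by exact_mod_cast (by have := G.two_le v; omega)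
    exact (G.le v i).trans (Real.rpow_le_rpow_of_exponent_le h1 (by linarith))
  sum := fun σ hσ => by
    have h2 := (G.sum (σ - θ) (by linarith)).mul_left (d : ℝ)
    refine Summable.of_nonneg_of_le (fun v => ?_) (fun v => ?_) h2
    · have : (0 : ℝ) ≤ q v := Nat.cast_nonneg _
      positivity
    · have h3 : (0 : ℝ) < q v := by exact_mod_cast (by have := G.two_le v; omega)
      have h4 : (q v : ℝ) ^ (-(σ - θ)) = (q v : ℝ) ^ θ * (q v : ℝ) ^ (-σ) := by
        rw [← Real.rpow_add h3]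
        congr 1
        ring
      rw [h4]
      calc ∑ i, ‖α v i‖ * (q v : ℝ) ^ (-σ) ≤ ∑ _i : Fin d, (q v : ℝ) ^ θ * (q v : ℝ) ^ (-σ) :=
            Finset.sum_le_sum fun i _ => mul_le_mul_of_nonneg_right (G.le v i) (by positivity)
        _ = _ := by
          rw [Finset.sum_const, Finset.card_univ, Fintype.card_fin, nsmul_eq_mul]

theorem ef_fac (G : CSys θ q α) (s : ℂ) : ef (fun v => (q v : ℝ)) α s = fac q α s := by
  funext v
  unfold ef fac
  refine Finset.prod_congr rfl fun i _ => ?_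
  rw [cpow_nat (G.two_le v)]

theorem rt_tm (s₀ : ℂ) (γ T : ℝ) (x : X × ℕ) :
    rt (el fun v => (q v : ℝ)) (ec α) s₀ γ T x = tm q α s₀ γ T x := by
  unfold rt tm ec el om lam
  push_cast
  simp only [div_eq_mul_inv, mul_inv]
  ring

theorem RS_Su (s₀ : ℂ) (γ : ℝ) : RS (el fun v => (q v : ℝ)) (ec α) s₀ γ = Su q α s₀ γ :=
  funext fun T => tsum_congr fun x => rt_tm s₀ γ T x

/-- absolute convergence, for every `s₀` -/
theorem tm_summable_all (G : CSys θ q α) (s₀ : ℂ) (γ : ℝ) {T : ℝ} (hT : 0 < T) :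
    Summable fun x => ‖tm q α s₀ γ T x‖ := by
  have h1 := (es_of G).gd.rt_summable s₀ γ hT
  simpa only [rt_tm] using h1

/-- **the rotated law at every point** -/
theorem law_all (G : CSys θ q α) {L : ℂ → ℂ}
    (hL : ∀ s : ℂ, 1 + θ < s.re → HasProd (fac q α s) (L s)) {s₀ : ℂ}
    (hmer : ∀ x : ℝ, 0 ≤ x → s₀.re + x ≤ 1 + θ → MeromorphicAt L (s₀ + x)) {γ : ℝ}
    (hγ : Real.pi / 2 < γ) :
    ∃ (m : ℤ) (r₀ : ℂ), meromorphicOrderAt L s₀ = m ∧ meromorphicTrailingCoeffAt L s₀ = exp r₀ ∧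
      Asy (Lam γ) (Su q α s₀ γ) m r₀ := by
  obtain ⟨m, r₀, h1, h2, h3⟩ := (es_of G).law (L := L) (fun s hs => by
    rw [ef_fac G]
    exact hL s hs) hmer hγ
  rw [RS_Su] at h3
  exact ⟨m, r₀, h1, h2, h3⟩

end Pool.Agent.X156.GL
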