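import Pool.Agent.X156.GL.Law

/-!
# The rotated law for Euler products with any abscissa of convergence, at every point

`L(s) = ∏_v ∏_i (1 - α_{v,i} q_v^{-s})⁻¹` for `Re s > A`, with real norms `q_v ≥ q₀ > 1` (for instance
`q_v = e^{length}`), `|α_{v,i}| ≤ q_v^A` and `∑ |α_{v,i}| q_v^{-σ} < ∞` for `σ > A`.
-/

set_option autoImplicit false

namespace Pool.Agent.X156.GL

open Complex Filter Topology Set Asymptotics
open Pool.Agent.X287.CR Pool.Agent.W189.ML Pool.Agent.W189.LC Pool.Agent.W187.UR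

variable {X : Type} {d : ℕ} {A : ℝ} {q : X → ℝ} {α : X → Fin d → ℂ}

/-- an Euler product with norms `q v` and local roots `α v i`, absolutely convergent for `Re s > A` -/
structure ES (A : ℝ) (q : X → ℝ) (α : X → Fin d → ℂ) : Prop where
  cnt : Countable X
  gap : ∃ q₀ : ℝ, 1 < q₀ ∧ ∀ v, q₀ ≤ q v
  le : ∀ v i, ‖α v i‖ ≤ q v ^ A
  sum : ∀ σ : ℝ, A < σ → Summable fun v => ∑ i, ‖α v i‖ * q v ^ (-σ)

/-- the frequencies `k log q`, `k = x.2 + 1` -/
noncomputable def el (q : X → ℝ) (x : X × ℕ) : ℝ := (x.2 + 1) * Real.log (q x.1)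

/-- the coefficients `(∑ α^k) / k` -/
noncomputable def ec (α : X → Fin d → ℂ) (x : X × ℕ) : ℂ := (∑ i, α x.1 i ^ (x.2 + 1)) / (x.2 + 1)

/-- the Euler factor -/
noncomputable def ef (q : X → ℝ) (α : X → Fin d → ℂ) (s : ℂ) (v : X) : ℂ :=
  ∏ i, (1 - α v i * exp (-(s * Real.log (q v))))⁻¹

namespace ES

variable (G : ES A q α)
include G

lemma qpos (v : X) : 0 < q v := by
  obtain ⟨q₀, h1, h2⟩ := G.gap
  linarith [h2 v]

lemma one_lt (v : X) : 1 < q v := by
  obtain ⟨q₀, h1, h2⟩ := G.gap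
  linarith [h2 v]

lemma el_nonneg (x : X × ℕ) : 0 ≤ el q x := by
  have := Real.log_pos (G.one_lt x.1)
  unfold el
  positivity

lemma exp_el (σ : ℝ) (x : X × ℕ) : Real.exp (-(σ * el q x)) = (q x.1 ^ (-σ)) ^ (x.2 + 1) := by
  rw [Real.rpow_def_of_pos (G.qpos x.1), ← Real.exp_nat_mul]
  congr 1
  unfold el
  push_cast
  ring

lemma root_le {σ : ℝ} (hσ : A < σ) : ∃ ρ : ℝ, 0 ≤ ρ ∧ ρ < 1 ∧ ∀ v i, ‖α v i‖ * q v ^ (-σ) ≤ ρ := by
  obtain ⟨q₀, h1, h2⟩ := G.gap
  refine ⟨q₀ ^ (A - σ), (Real.rpow_pos_of_pos (by linarith) _).le,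
    Real.rpow_lt_one_of_one_lt_of_neg h1 (by linarith), fun v i => ?_⟩
  have h3 := G.qpos v
  calc ‖α v i‖ * q v ^ (-σ) ≤ q v ^ A * q v ^ (-σ) := by
        have := (Real.rpow_pos_of_pos h3 (-σ)).le
        gcongr
        exact G.le v i
    _ = q v ^ (A - σ) := by rw [← Real.rpow_add h3]; rfl
    _ ≤ q₀ ^ (A - σ) := Real.rpow_le_rpow_of_nonpos (by linarith) (h2 v) (by linarith)

theorem gd : GD A (el q) (ec α) where
  cnt := by
    have := G.cnt
    infer_instance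
  nonneg := G.el_nonneg
  sum σ hσ := by
    obtain ⟨ρ, hρ0, hρ1, hρ⟩ := G.root_le hσ
    have hg : Summable fun n : ℕ => ρ ^ n := summable_geometric_of_lt_one hρ0 hρ1
    have hn : ∀ v, 0 ≤ ∑ i, ‖α v i‖ * q v ^ (-σ) := fun v =>
      Finset.sum_nonneg fun i _ => mul_nonneg (norm_nonneg _)
        (Real.rpow_pos_of_pos (G.qpos v) _).le
    have h1 := (G.sum σ hσ).mul_of_nonneg hg hn (fun n => pow_nonneg hρ0 n)
    refine Summable.of_nonneg_of_le (fun x => by positivity) (fun x => ?_) h1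
    rw [G.exp_el]
    set y := q x.1 ^ (-σ) with hy
    have hy0 : 0 ≤ y := (Real.rpow_pos_of_pos (G.qpos x.1) _).le
    have h2 : ‖ec α x‖ ≤ ∑ i, ‖α x.1 i‖ ^ (x.2 + 1) := by
      unfold ec
      rw [norm_div]
      have h3 : ‖((x.2 : ℂ) + 1)‖ = (x.2 : ℝ) + 1 := by
        have : ((x.2 : ℂ) + 1) = (((x.2 : ℝ) + 1 : ℝ) : ℂ) := by push_cast; ring
        rw [this, Complex.norm_real, Real.norm_eq_abs, abs_of_nonneg (by positivity)]
      rw [h3]
      have h4 : ‖∑ i, α x.1 i ^ (x.2 + 1)‖ ≤ ∑ i, ‖α x.1 i‖ ^ (x.2 + 1) := by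
        refine (norm_sum_le _ _).trans (le_of_eq ?_)
        simp only [norm_pow]
      have h5 : (0 : ℝ) ≤ ∑ i, ‖α x.1 i‖ ^ (x.2 + 1) := by positivity
      rw [div_le_iff₀ (by positivity)]
      nlinarith [Nat.cast_nonneg (α := ℝ) x.2]
    calc ‖ec α x‖ * y ^ (x.2 + 1) ≤ (∑ i, ‖α x.1 i‖ ^ (x.2 + 1)) * y ^ (x.2 + 1) := by gcongr
      _ = ∑ i, (‖α x.1 i‖ * y) ^ (x.2 + 1) := by
        rw [Finset.sum_mul]
        exact Finset.sum_congr rfl fun i _ => (mul_pow _ _ _).symm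
      _ ≤ ∑ i, (‖α x.1 i‖ * y) * ρ ^ x.2 := by
        refine Finset.sum_le_sum fun i _ => ?_
        rw [pow_succ, mul_comm]
        have h6 := hρ x.1 i
        have h7 : 0 ≤ ‖α x.1 i‖ * y := by positivity
        gcongr
      _ = _ := by rw [Finset.sum_mul]

lemma norm_e (s : ℂ) (v : X) : ‖exp (-(s * Real.log (q v)))‖ = q v ^ (-s.re) := by
  rw [norm_exp_mul, Real.rpow_def_of_pos (G.qpos v)]
  congr 1
  ring

lemma bx_lt {s : ℂ} (hs : A < s.re) (v : X) (i : Fin d) :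
    ‖α v i * exp (-(s * Real.log (q v)))‖ < 1 := by
  obtain ⟨ρ, hρ0, hρ1, hρ⟩ := G.root_le hs
  rw [norm_mul, G.norm_e]
  exact (hρ v i).trans_lt hρ1

/-- the Euler factor at `v` in terms of the series -/
lemma factor_sum {s : ℂ} (hs : A < s.re) (v : X) :
    HasSum (fun n : ℕ => ec α (v, n) * exp (-(s * el q (v, n))))
      (∑' n : ℕ, ec α (v, n) * exp (-(s * el q (v, n)))) ∧
    exp (∑' n : ℕ, ec α (v, n) * exp (-(s * el q (v, n)))) = ef q α s v := by
  set x : ℂ := exp (-(s * Real.log (q v))) with hx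
  have hterm : ∀ n : ℕ, ec α (v, n) * exp (-(s * el q (v, n))) =
      ∑ i, (α v i * x) ^ (n + 1) / ((n + 1 : ℕ) : ℂ) := by
    intro n
    have e1 : exp (-(s * el q (v, n))) = x ^ (n + 1) := by
      rw [hx, ← Complex.exp_nat_mul]
      congr 1
      unfold el
      push_cast
      ring
    unfold ec
    rw [e1, div_mul_eq_mul_div, Finset.sum_mul, Finset.sum_div]
    refine Finset.sum_congr rfl fun i _ => ?_
    rw [mul_pow]
    push_cast
    rfl
  have hs' : ∀ z : ℂ, ‖z‖ < 1 →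
      HasSum (fun n : ℕ => z ^ (n + 1) / ((n + 1 : ℕ) : ℂ)) (-log (1 - z)) := by
    intro z hz
    have := Complex.hasSum_taylorSeries_neg_log hz
    rw [← hasSum_nat_add_iff' 1] at this
    simpa using this
  have hS : HasSum (fun n : ℕ => ec α (v, n) * exp (-(s * el q (v, n))))
      (∑ i, -log (1 - α v i * x)) := by
    simp only [hterm]
    exact hasSum_sum fun i _ => hs' _ (G.bx_lt hs v i)
  refine ⟨hS.summable.hasSum, ?_⟩
  rw [hS.tsum_eq, Complex.exp_sum]
  unfold ef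
  refine Finset.prod_congr rfl fun i _ => ?_
  have hne : 1 - α v i * x ≠ 0 := by
    intro h
    rw [sub_eq_zero] at h
    have h2 := G.bx_lt hs v i
    rw [← hx, ← h, norm_one] at h2
    exact lt_irrefl _ h2
  rw [Complex.exp_neg, Complex.exp_log hne]

/-- the Euler product is the exponential of the series -/
theorem hasProd {s : ℂ} (hs : A < s.re) : HasProd (ef q α s) (exp (sr (el q) (ec α) s)) := by
  have h0 : Summable fun x : X × ℕ => ec α x * exp (-(s * el q x)) := by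
    refine Summable.of_norm_bounded (G.gd.sum _ hs) fun x => ?_
    rw [norm_mul, norm_exp_mul]
  have h1 : HasSum (fun x : X × ℕ => ec α x * exp (-(s * el q x)))
      (sr (el q) (ec α) s) := h0.hasSum
  have h2 := h1.prod_fiberwise (fun v => (G.factor_sum hs v).1)
  have h3 := h2.cexp
  have h4 : (Complex.exp ∘ fun v => ∑' n : ℕ, ec α (v, n) * exp (-(s * el q (v, n)))) =
      ef q α s := by
    funext v
    exact (G.factor_sum hs v).2
  rw [h4] at h3
  exact h3

/-- **The rotated law for Euler products at every point.** -/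
theorem law {L : ℂ → ℂ} (hL : ∀ s : ℂ, A < s.re → HasProd (ef q α s) (L s)) {s₀ : ℂ}
    (hmer : ∀ x : ℝ, 0 ≤ x → s₀.re + x ≤ A → MeromorphicAt L (s₀ + x)) {γ : ℝ}
    (hγ : Real.pi / 2 < γ) :
    ∃ (m : ℤ) (r₀ : ℂ), meromorphicOrderAt L s₀ = m ∧ meromorphicTrailingCoeffAt L s₀ = exp r₀ ∧
      Asy (Lam γ) (RS (el q) (ec α) s₀ γ) m r₀ :=
  G.gd.law (fun s hs => (hL s hs).unique (G.hasProd hs)) hmer hγ

end ES

/-- inequalities for the order -/
theorem _root_.Pool.Agent.X287.CR.Asy.le_iff {Λ : ℂ} {S : ℝ → ℂ} {m : ℤ} {r₀ : ℂ} (h : Asy Λ S m r₀)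
    (e : ℤ) : m ≤ e ↔ ∃ C : ℝ, ∀ᶠ T : ℝ in atTop, (S T).re ≤ e * Real.log T + C := by
  have h1 := h.tend_re
  constructor
  · intro hm
    refine ⟨-(m * Λ.re) - r₀.re + 1, ?_⟩
    have h2 := h1.eventually (gt_mem_nhds (zero_lt_one))
    filter_upwards [h2, eventually_ge_atTop (1 : ℝ)] with T hT hT1
    have h3 : (m : ℝ) ≤ e := by exact_mod_cast hm
    have h4 := Real.log_nonneg hT1
    nlinarith
  · rintro ⟨C, hC⟩
    by_contra hm
    push Not at hm
    have h2 := h.order_lim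
    have h5 : Tendsto (fun T : ℝ => (e : ℝ) + C / Real.log T) atTop (𝓝 ((e : ℝ) + 0)) :=
      tendsto_const_nhds.add (tendsto_const_nhds.div_atTop Real.tendsto_log_atTop)
    have h6 := le_of_tendsto_of_tendsto h2 h5 (by
      filter_upwards [hC, eventually_gt_atTop (1 : ℝ)] with T hT hT1
      have h4 := Real.log_pos hT1
      rw [div_le_iff₀ h4]
      have : (e + C / Real.log T) * Real.log T = e * Real.log T + C := by field_simp
      rw [this]
      exact hT)
    rw [add_zero] at h6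
    have h7 : m ≤ e := by exact_mod_cast h6
    omega

theorem _root_.Pool.Agent.X287.CR.Asy.ge_iff {Λ : ℂ} {S : ℝ → ℂ} {m : ℤ} {r₀ : ℂ} (h : Asy Λ S m r₀)
    (e : ℤ) : e ≤ m ↔ ∃ C : ℝ, ∀ᶠ T : ℝ in atTop, e * Real.log T - C ≤ (S T).re := by
  have h1 := h.tend_re
  constructor
  · intro hm
    refine ⟨(m * Λ.re) + r₀.re + 1, ?_⟩
    have h2 := h1.eventually (lt_mem_nhds (show (-1 : ℝ) < 0 by norm_num))
    filter_upwards [h2, eventually_ge_atTop (1 : ℝ)] with T hT hT1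
    have h3 : (e : ℝ) ≤ m := by exact_mod_cast hm
    have h4 := Real.log_nonneg hT1
    nlinarith
  · rintro ⟨C, hC⟩
    by_contra hm
    push Not at hm
    have h2 := h.order_lim
    have h5 : Tendsto (fun T : ℝ => (e : ℝ) - C / Real.log T) atTop (𝓝 ((e : ℝ) - 0)) :=
      tendsto_const_nhds.sub (tendsto_const_nhds.div_atTop Real.tendsto_log_atTop)
    have h6 := le_of_tendsto_of_tendsto h5 h2 (by
      filter_upwards [hC, eventually_gt_atTop (1 : ℝ)] with T hT hT1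
      have h4 := Real.log_pos hT1
      rw [le_div_iff₀ h4]
      have : (e - C / Real.log T) * Real.log T = e * Real.log T - C := by field_simp
      rw [this]
      exact hT)
    rw [sub_zero] at h6
    have h7 : e ≤ m := by exact_mod_cast h6
    omega

end Pool.Agent.X156.GL
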