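import Pool.Agent.X156.GL.CS
import Pool.Agent.X287.ST8
import Pool.Agent.TH119.MX.Gal

/-!
# L-functions of characters of ray class groups at all points: unconditional convergent sums

`K` a number field, `𝔪 ≠ (0), (1)` an ideal, `G` a finite abelian group, `c` a class map.
-/

set_option autoImplicit false
set_option linter.unusedSectionVars false

open Filter Topology Asymptotics
open IsDedekindDomain NumberField

namespace Pool.Agent.X156.GL.GR

section defs
variable {K : Type} [Field K] [NumberField K] {G : Type} [CommGroup G] [Fintype G]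

/-- `c` is multiplicative on the ideals prime to `𝔪`, and trivial on the ideals `(x)` with `x ≡ 1` modulo `𝔪` and
`x` totally positive. -/
structure IsClassMap (𝔪 : Ideal (𝓞 K)) (c : Ideal (𝓞 K) → G) : Prop where
  mul : ∀ I J : Ideal (𝓞 K), IsCoprime I 𝔪 → IsCoprime J 𝔪 → c (I * J) = c I * c J
  ray : ∀ x : 𝓞 K, x ≠ 0 → x - 1 ∈ 𝔪 → (∀ σ : K →+* ℝ, 0 < σ (x : K)) → c (Ideal.span {x}) = 1

/-- The primes which do not divide `𝔪`. -/
abbrev Places (𝔪 : Ideal (𝓞 K)) : Type := {v : HeightOneSpectrum (𝓞 K) // IsCoprime v.asIdeal 𝔪}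

/-- The complex characters of the finite abelian group `G` (the inverse of `χ` is `-χ`). -/
abbrev Character (G : Type) [CommGroup G] : Type := AddChar (Additive G) ℂ

/-- The value `χ(g)`. -/
def value (χ : Character G) (g : G) : ℂ := χ (Additive.ofMul g)

/-- The conjugate character `χ^σ = σ ∘ χ`. -/
noncomputable def conj (σ : ℂ ≃+* ℂ) (χ : Character G) : Character G := (σ : ℂ →* ℂ).compAddChar χ

/-- `Λ` is the function `L(s, χ)` (Euler product over the primes not dividing `𝔪`), continued to `ℂ - {1}` and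
meromorphic at `1`. -/
structure IsL (𝔪 : Ideal (𝓞 K)) (c : Ideal (𝓞 K) → G) (χ : Character G) (Λ : ℂ → ℂ) : Prop where
  prod : ∀ s : ℂ, 1 < s.re → HasProd (fun v : Places 𝔪 =>
    (1 - value χ (c v.1.asIdeal) * ((Ideal.absNorm v.1.asIdeal : ℕ) : ℂ) ^ (-s))⁻¹) (Λ s)
  analytic : ∀ s : ℂ, s ≠ 1 → AnalyticAt ℂ Λ s
  mero : MeromorphicAt Λ 1

/-- The term of the prime `v = x.1` and the exponent `j = x.2 + 1` in the sum at the integer `n`. -/
noncomputable def term (𝔪 : Ideal (𝓞 K)) (c : Ideal (𝓞 K) → G) (n : ℤ) (γ T : ℝ) (χ : Character G)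
    (x : Places 𝔪 × ℕ) : ℂ :=
  value χ (c x.1.1.asIdeal) ^ (x.2 + 1) * (((Ideal.absNorm x.1.1.asIdeal : ℕ) : ℂ) ^ (-n)) ^ (x.2 + 1) *
      Complex.exp ((γ * ((x.2 + 1) * Real.log (Ideal.absNorm x.1.1.asIdeal : ℕ) / T) : ℝ) * Complex.I) /
    (((x.2 + 1) * Real.Gamma (1 + (x.2 + 1) * Real.log (Ideal.absNorm x.1.1.asIdeal : ℕ) / T) : ℝ) : ℂ)

/-- The sum `∑_v ∑_{j ≥ 1} χ(c(v))^j Nv^{-jn} exp(iγ j log Nv / T) / (j Γ(1 + j log Nv / T))`. -/
noncomputable def charSum (𝔪 : Ideal (𝓞 K)) (c : Ideal (𝓞 K) → G) (n : ℤ) (γ T : ℝ) (χ : Character G) : ℂ :=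
  ∑' x, term 𝔪 c n γ T χ x

/-- The constant `Λ(γ) = ∫_0^∞ (e^{-t} - e^{iγt} / Γ(1 + t)) dt / t`. -/
noncomputable def Lambda (γ : ℝ) : ℂ := ∫ t in Set.Ioi (0 : ℝ),
  (Complex.exp (-(t : ℂ)) - Complex.exp ((γ * t : ℝ) * Complex.I) * ((Real.Gamma (1 + t))⁻¹ : ℝ)) / t

/-- The coefficient of `g` in the element `∑_χ A(χ) e_χ` of the group ring, `e_χ = |G|⁻¹ ∑_g χ(g⁻¹) g`. -/
noncomputable def coef (A : Character G → ℂ) (g : G) : ℂ :=
  (Fintype.card G : ℂ)⁻¹ * ∑ χ : Character G, A χ * value χ g⁻¹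

end defs

open Pool.Agent.X287.ST Pool.Agent.X287.CR

variable {K : Type} [Field K] [NumberField K] {G : Type} [CommGroup G] [Fintype G]
variable {𝔪 : Ideal (𝓞 K)} {c : Ideal (𝓞 K) → G}

theorem tm_eq (n : ℤ) (γ T : ℝ) (χ : Character G) (x : Places 𝔪 × ℕ) :
    tm (qq 𝔪) (al 𝔪 c (chr χ)) n γ T x = -term 𝔪 c n γ T χ x := by
  unfold tm term lam al qq value
  simp only [Finset.univ_unique, Finset.sum_const, Finset.card_singleton, one_smul]
  have hv : 2 ≤ Ideal.absNorm x.1.1.asIdeal := (csys 𝔪 c χ).two_le x.1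
  have hv0 : ((Ideal.absNorm x.1.1.asIdeal : ℕ) : ℂ) ≠ 0 := by exact_mod_cast (by omega)
  have e : Complex.exp (-((n : ℂ) * (((x.2 + 1) * Real.log (Ideal.absNorm x.1.1.asIdeal : ℕ) : ℝ) : ℂ))) =
      (((Ideal.absNorm x.1.1.asIdeal : ℕ) : ℂ) ^ (-n)) ^ (x.2 + 1) := by
    have h1 : ((Ideal.absNorm x.1.1.asIdeal : ℕ) : ℂ) ^ (-n) =
        ((Ideal.absNorm x.1.1.asIdeal : ℕ) : ℂ) ^ (-(n : ℂ)) := by
      rw [← Complex.cpow_intCast]
      push_cast
      rfl
    rw [h1, cpow_nat hv, ← Complex.exp_nat_mul]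
    congr 1
    push_cast
    ring
  rw [e]
  rw [neg_mul, neg_mul, neg_div]
  rfl

theorem Su_eq (n : ℤ) (γ T : ℝ) (χ : Character G) :
    Su (qq 𝔪) (al 𝔪 c (chr χ)) n γ T = -charSum 𝔪 c n γ T χ := by
  unfold Su charSum
  rw [← tsum_neg]
  exact tsum_congr fun x => tm_eq n γ T χ x

theorem fac_eq (χ : Character G) (s : ℂ) : fac (qq 𝔪) (al 𝔪 c (chr χ)) s = fun v : Places 𝔪 =>
    (1 - value χ (c v.1.asIdeal) * ((Ideal.absNorm v.1.asIdeal : ℕ) : ℂ) ^ (-s))⁻¹ := by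
  funext v
  unfold fac al qq
  simp only [Finset.univ_unique, Finset.prod_const, Finset.card_singleton, pow_one]
  rfl

/-- absolute convergence -/
theorem term_summable (n : ℤ) (γ : ℝ) {T : ℝ} (hT : 0 < T) (χ : Character G) :
    Summable fun x => ‖term 𝔪 c n γ T χ x‖ := by
  have h2 := tm_summable_all (csys 𝔪 c χ) n γ hT
  refine h2.congr fun x => ?_
  rw [tm_eq, norm_neg]

/-- the law at the integer `n` -/
theorem law (χ : Character G) (n : ℤ) {Λ : ℂ → ℂ} (h : IsL 𝔪 c χ Λ) {γ : ℝ} (hγ : Real.pi / 2 < γ) :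
    ∃ (m : ℤ) (ℓ : ℂ), meromorphicOrderAt Λ n = m ∧ meromorphicTrailingCoeffAt Λ n = Complex.exp ℓ ∧
      Asy (Lambda γ) (fun T => -charSum 𝔪 c n γ T χ) m ℓ := by
  obtain ⟨m, ℓ, h1, h2, h3⟩ := law_all (csys 𝔪 c χ) (L := Λ) (s₀ := n) (fun s hs => by
    rw [add_zero] at hs
    rw [fac_eq]
    exact h.prod s hs) (fun x _ _ => by
    by_cases hx : (n : ℂ) + x = 1
    · rw [hx]; exact h.mero
    · exact (h.analytic _ hx).meromorphicAt) hγ
  refine ⟨m, ℓ, h1, h2, ?_⟩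
  have h4 : (Su (qq 𝔪) (al 𝔪 c (chr χ)) n γ) = fun T => -charSum 𝔪 c n γ T χ :=
    funext fun T => Su_eq n γ T χ
  rw [h4] at h3
  exact h3

/-- **Hecke**: the continuation exists -/
theorem exists_L (h0 : 𝔪 ≠ ⊥) (h1 : 𝔪 ≠ ⊤) (hc : IsClassMap 𝔪 c) (χ : Character G) :
    ∃ Λ, IsL 𝔪 c χ Λ := by
  have hcc : IsClassMapR 𝔪 ∅ c := ⟨hc.mul, fun x hx0 hx1 hx2 => hc.ray x hx0 hx1 fun σ => hx2 σ (by simp)⟩
  obtain ⟨Z, hZ, -⟩ := exists_PZ_ord h1 h0 hcc
  refine ⟨fun s => ∑ g, chr χ g * Z g s, fun s hs => ?_, fun s hs => ?_, ?_⟩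
  · have h2 := hasProd_L h1 hcc.toClass χ hs fun σ => hZ.sum σ s hs
    rwa [fac_eq] at h2
  · exact Finset.analyticAt_fun_sum _ fun g _ => analyticAt_const.mul (hZ.an g s hs)
  · exact MeromorphicAt.fun_sum fun g _ => (MeromorphicAt.const _ _).mul (hZ.mer g)

/-- uniqueness of the continuation -/
theorem uniq_L {χ : Character G} {Λ Λ' : ℂ → ℂ} (h : IsL 𝔪 c χ Λ) (h' : IsL 𝔪 c χ Λ') {s : ℂ}
    (hs : s ≠ 1) : Λ s = Λ' s := by
  have hpre : IsPreconnected ({1}ᶜ : Set ℂ) := by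
    refine (isConnected_compl_singleton_of_one_lt_rank ?_ 1).isPreconnected
    rw [Complex.rank_real_complex]
    norm_num
  have h2 : AnalyticOnNhd ℂ Λ {1}ᶜ := fun z hz => h.analytic z hz
  have h3 : AnalyticOnNhd ℂ Λ' {1}ᶜ := fun z hz => h'.analytic z hz
  have h4 : Λ =ᶠ[𝓝 (2 : ℂ)] Λ' := by
    have hopen : IsOpen {z : ℂ | 1 < z.re} := isOpen_lt continuous_const Complex.continuous_re
    filter_upwards [hopen.mem_nhds (show (2 : ℂ) ∈ {z : ℂ | 1 < z.re} by simp)] with z hz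
    exact (h.prod z hz).unique (h'.prod z hz)
  exact h2.eqOn_of_preconnected_of_eventuallyEq h3 hpre (z₀ := (2 : ℂ)) (by simp) h4 hs

/-- duality -/
theorem dual (A : Character G → ℂ) (χ : Character G) : ∑ g, coef A g * value χ g = A χ := by
  classical
  have hc0 : (Fintype.card G : ℂ) ≠ 0 := by exact_mod_cast Fintype.card_ne_zero
  have h1 : ∀ ψ : Character G, ∑ g : G, value ψ g⁻¹ * value χ g =
      if χ = ψ then (Fintype.card G : ℂ) else 0 := by
    intro ψ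
    have h2 := AddChar.sum_eq_ite (χ - ψ)
    have hcard : Fintype.card (Additive G) = Fintype.card G := Fintype.card_congr Additive.toMul
    rw [hcard] at h2
    have h3 : ∑ g : G, value ψ g⁻¹ * value χ g = ∑ a : Additive G, (χ - ψ) a := by
      rw [← Equiv.sum_comp Additive.ofMul (fun a => (χ - ψ) a)]
      refine Finset.sum_congr rfl fun g _ => ?_
      rw [AddChar.sub_apply, mul_comm]
      rfl
    rw [h3, h2]
    simp only [sub_eq_zero]
  calc ∑ g, coef A g * value χ g = (Fintype.card G : ℂ)⁻¹ *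
        ∑ ψ : Character G, A ψ * ∑ g : G, value ψ g⁻¹ * value χ g := by
        unfold coef
        simp only [Finset.mul_sum, Finset.sum_mul]
        rw [Finset.sum_comm]
        refine Finset.sum_congr rfl fun ψ _ => Finset.sum_congr rfl fun g _ => by ring
    _ = A χ := by
        simp only [h1]
        rw [Finset.sum_eq_single χ]
        · rw [if_pos rfl]
          field_simp
        · intro ψ _ hψ
          rw [if_neg (Ne.symm hψ), mul_zero]
        · intro h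
          exact absurd (Finset.mem_univ _) h

/-- conjugation permutes the characters -/
noncomputable def conjEquiv (σ : ℂ ≃+* ℂ) : Character G ≃ Character G where
  toFun := conj σ
  invFun := conj σ.symm
  left_inv χ := by
    ext a
    show σ.symm (σ (χ a)) = χ a
    exact σ.symm_apply_apply _
  right_inv χ := by
    ext a
    show σ (σ.symm (χ a)) = χ a
    exact σ.apply_symm_apply _

/-- a complex number fixed by all automorphisms is rational -/
theorem rational_of_fixed {z : ℂ} (h : ∀ σ : ℂ ≃+* ℂ, σ z = z) : ∃ q : ℚ, z = q := by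
  by_contra hcon
  have hq : z ∉ (⊥ : Subfield ℂ) := by
    intro hb
    apply hcon
    have h2 : (⊥ : Subfield ℂ) ≤ (algebraMap ℚ ℂ).fieldRange := bot_le
    obtain ⟨q, hq⟩ := h2 hb
    exact ⟨q, by rw [← hq]; rfl⟩
  obtain ⟨σ, -, hσ⟩ := Pool.Agent.TH119.MX.exists_move hq
  exact hσ (h σ)

/-- the equivariance of `A` means that the element of the group ring is rational -/
theorem equi_iff (A : Character G → ℂ) :
    (∀ (σ : ℂ ≃+* ℂ) (χ : Character G), σ (A χ) = A (conj σ χ)) ↔ ∀ g, ∃ q : ℚ, coef A g = q := by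
  constructor
  · intro h g
    refine rational_of_fixed fun σ => ?_
    unfold coef
    rw [map_mul, map_inv₀, map_natCast, map_sum]
    congr 1
    rw [← Equiv.sum_comp (conjEquiv σ) (fun χ => A χ * value χ g⁻¹)]
    refine Finset.sum_congr rfl fun χ _ => ?_
    rw [map_mul, h]
    rfl
  · intro h σ χ
    rw [← dual A χ, ← dual A (conj σ χ), map_sum]
    refine Finset.sum_congr rfl fun g _ => ?_
    obtain ⟨q, hq⟩ := h g
    rw [map_mul, hq, map_ratCast]
    rfl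

/-- the coefficients converge with the same rate -/
theorem coef_rate {A : Character G → ℂ} {a : ℝ → Character G → ℂ}
    (h : ∀ χ, (fun T : ℝ => a T χ - A χ) =O[atTop] (fun T : ℝ => 1 / T)) (N : ℕ) (g : G) :
    (fun T : ℝ => N * coef (a T) g - N * coef A g) =O[atTop] (fun T : ℝ => 1 / T) := by
  have h2 : (fun T : ℝ => ∑ χ : Character G, value χ g⁻¹ * (a T χ - A χ))
      =O[atTop] (fun T : ℝ => 1 / T) := IsBigO.fun_sum fun χ _ => (h χ).const_mul_left _
  refine (h2.const_mul_left (N * (Fintype.card G : ℂ)⁻¹)).congr_left fun T => ?_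
  unfold coef
  rw [mul_assoc, ← mul_sub, ← mul_sub, ← Finset.sum_sub_distrib]
  congr 2
  exact Finset.sum_congr rfl fun χ _ => by ring

/-- **rationality of the element and approach to integers** -/
theorem integral_iff {A : Character G → ℂ} {a : ℝ → Character G → ℂ}
    (h : ∀ χ, (fun T : ℝ => a T χ - A χ) =O[atTop] (fun T : ℝ => 1 / T)) :
    ((∀ g, ∃ q : ℚ, coef A g = q) ↔ ∃ N : ℕ, 1 ≤ N ∧ ∀ ε > 0, ∀ T₀ : ℝ, ∃ T ≥ T₀, ∃ n : G → ℤ,
      ∀ g, ‖N * coef (a T) g - n g‖ < ε) ∧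
    ((∀ g, ∃ q : ℚ, coef A g = q) ↔ ∃ N : ℕ, 1 ≤ N ∧ ∃ n : G → ℤ, ∀ g,
      (fun T : ℝ => N * coef (a T) g - n g) =O[atTop] (fun T : ℝ => 1 / T)) := by
  classical
  have h0T : Tendsto (fun T : ℝ => 1 / T) atTop (𝓝 (0 : ℝ)) :=
    tendsto_const_nhds.div_atTop tendsto_id
  have hN := fun (N : ℕ) (g : G) => coef_rate h N g
  have hbd : (∀ g, ∃ q : ℚ, coef A g = q) → ∃ N : ℕ, 1 ≤ N ∧ ∃ n : G → ℤ, ∀ g,
        (fun T : ℝ => N * coef (a T) g - n g) =O[atTop] (fun T : ℝ => 1 / T) := by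
    intro h
    choose q hq using h
    set N : ℕ := ∏ g, (q g).den with hNdef
    have hNpos : 1 ≤ N := Nat.one_le_iff_ne_zero.2 (Finset.prod_ne_zero_iff.2 fun g _ => (q g).den_nz)
    have hint : ∀ g, ∃ n : ℤ, (N : ℚ) * q g = n := by
      intro g
      obtain ⟨k, hk⟩ : (q g).den ∣ N := Finset.dvd_prod_of_mem (fun g => (q g).den) (Finset.mem_univ g)
      refine ⟨k * (q g).num, ?_⟩
      rw [hk]
      push_cast
      have h3 := Rat.den_mul_eq_num (q g)
      linear_combination (k : ℚ) * h3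
    choose n hn using hint
    refine ⟨N, hNpos, n, fun g => ?_⟩
    refine (hN N g).congr_left fun T => ?_
    have h4 : (N : ℂ) * coef A g = n g := by
      rw [hq g]
      exact_mod_cast hn g
    rw [h4]
  have hdc : ∀ N : ℕ, (∃ n : G → ℤ, ∀ g,
      (fun T : ℝ => N * coef (a T) g - n g) =O[atTop] (fun T : ℝ => 1 / T)) →
      ∀ ε > 0, ∀ T₀ : ℝ, ∃ T ≥ T₀, ∃ n : G → ℤ, ∀ g, ‖N * coef (a T) g - n g‖ < ε := by
    rintro N ⟨n, hn⟩ ε hε T₀
    have h3 : ∀ᶠ T : ℝ in atTop, ∀ g, ‖N * coef (a T) g - n g‖ < ε := by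
      rw [eventually_all]
      intro g
      have h4 := ((hn g).trans_tendsto h0T).norm
      rw [norm_zero] at h4
      exact h4.eventually_lt_const hε
    obtain ⟨T, hT1, hT2⟩ := (h3.and (eventually_ge_atTop T₀)).exists
    exact ⟨T, hT2, n, hT1⟩
  have hcb : (∃ N : ℕ, 1 ≤ N ∧ ∀ ε > 0, ∀ T₀ : ℝ, ∃ T ≥ T₀, ∃ n : G → ℤ,
      ∀ g, ‖N * coef (a T) g - n g‖ < ε) → ∀ g, ∃ q : ℚ, coef A g = q := by
    rintro ⟨N, hN1, h⟩ g
    set z : ℂ := N * coef A g with hz
    have hclose : ∀ δ : ℝ, 0 < δ → ∃ n : ℤ, ‖z - n‖ < δ := by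
      intro δ hδ
      have h3 : ∀ᶠ T : ℝ in atTop, ‖N * coef (a T) g - z‖ < δ / 2 := by
        have h4 := ((hN N g).trans_tendsto h0T).norm
        rw [norm_zero] at h4
        exact h4.eventually_lt_const (by positivity)
      obtain ⟨T₀, hT₀⟩ := eventually_atTop.1 h3
      obtain ⟨T, hT, n, hn⟩ := h (δ / 2) (by positivity) T₀
      refine ⟨n g, ?_⟩
      have h5 : z - n g = (N * coef (a T) g - n g) - (N * coef (a T) g - z) := by ring
      rw [h5]
      calc _ ≤ ‖N * coef (a T) g - n g‖ + ‖N * coef (a T) g - z‖ := norm_sub_le _ _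
        _ < δ := by
          have := hn g
          have := hT₀ T hT
          linarith
    have hint : ∃ n : ℤ, z = n := by
      obtain ⟨n, hn⟩ := hclose (1 / 4) (by norm_num)
      refine ⟨n, ?_⟩
      by_contra hne
      have hpos : 0 < ‖z - n‖ := norm_pos_iff.2 (sub_ne_zero.2 hne)
      obtain ⟨n', hn'⟩ := hclose (min (1 / 4) ‖z - n‖) (lt_min (by norm_num) hpos)
      have h6 : ‖((n - n' : ℤ) : ℂ)‖ < 1 := by
        have h7 : ((n - n' : ℤ) : ℂ) = (z - n') - (z - n) := by push_cast; ring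
        rw [h7]
        calc _ ≤ ‖z - n'‖ + ‖z - n‖ := norm_sub_le _ _
          _ < 1 := by
            have := hn'.trans_le (min_le_left _ _)
            linarith
      rw [Complex.norm_intCast] at h6
      have h8 : n - n' = 0 := by
        have h9 : |n - n'| < 1 := by exact_mod_cast h6
        exact Int.abs_lt_one_iff.1 h9
      have h10 : n = n' := by omega
      rw [← h10] at hn'
      exact absurd (hn'.trans_le (min_le_right _ _)) (lt_irrefl _)
    obtain ⟨n, hn⟩ := hint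
    refine ⟨(n : ℚ) / N, ?_⟩
    have hN0 : (N : ℂ) ≠ 0 := by exact_mod_cast (by omega : N ≠ 0)
    push_cast
    rw [eq_div_iff hN0, ← hn, hz]
    ring
  refine ⟨⟨fun h => ?_, hcb⟩, ⟨hbd, ?_⟩⟩
  · obtain ⟨N, hN1, h2⟩ := hbd h
    exact ⟨N, hN1, hdc N h2⟩
  · rintro ⟨N, hN1, h2⟩
    exact hcb ⟨N, hN1, hdc N h2⟩

end Pool.Agent.X156.GL.GR
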