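import Pool.Agent.X287.CR4

/-!
# The rotated law for exponentials of generalised Dirichlet series, at every point of the plane

`L(s) = exp (∑ c_i e^{-s l_i})` for `Re s > A`, where `l_i ≥ 0` and the series converges absolutely for
`Re s > A` (any `A`), `s₀` any point of the plane, and `L` continues to a function which is meromorphic at
the points of the horizontal segment from `s₀` to `Re s = A`.
-/

set_option autoImplicit false

namespace Pool.Agent.X156.GL

open Complex Filter Topology Set Asymptotics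
open Pool.Agent.X287.CR Pool.Agent.W189.ML Pool.Agent.W189.LC Pool.Agent.W187.UR

variable {ι : Type} {A : ℝ} {l : ι → ℝ} {c : ι → ℂ}

/-- Coefficients `c i`, frequencies `l i ≥ 0`, absolute convergence for `Re s > A`. -/
structure GD (A : ℝ) (l : ι → ℝ) (c : ι → ℂ) : Prop where
  cnt : Countable ι
  nonneg : ∀ i, 0 ≤ l i
  sum : ∀ σ : ℝ, A < σ → Summable fun i => ‖c i‖ * Real.exp (-(σ * l i))

/-- the term of the rotated sum -/
noncomputable def rt (l : ι → ℝ) (c : ι → ℂ) (s₀ : ℂ) (γ T : ℝ) (i : ι) : ℂ :=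
  -(c i * exp (-(s₀ * l i)) * exp ((γ * (l i / T) : ℝ) * I) * (om (l i / T) : ℂ))

/-- the rotated sum at `s₀` -/
noncomputable def RS (l : ι → ℝ) (c : ι → ℂ) (s₀ : ℂ) (γ T : ℝ) : ℂ := ∑' i, rt l c s₀ γ T i

theorem norm_exp_mul (s : ℂ) (x : ℝ) : ‖exp (-(s * x))‖ = Real.exp (-(s.re * x)) := by
  rw [Complex.norm_exp]
  congr 1
  simp

theorem norm_tw (s₀ : ℂ) (i : ι) :
    ‖c i * exp (-(s₀ * l i))‖ = ‖c i‖ * Real.exp (-(s₀.re * l i)) := by
  rw [norm_mul, norm_exp_mul]

namespace GD

variable (G : GD A l c)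
include G

theorem sum_tw {s₀ : ℂ} {b : ℝ} (hb : A < s₀.re + b) :
    Summable fun i => ‖c i * exp (-(s₀ * l i))‖ * Real.exp (-(b * l i)) := by
  refine (G.sum _ hb).congr fun i => ?_
  rw [norm_tw, mul_assoc, ← Real.exp_add]
  congr 2
  ring

theorem norm_rt (s₀ : ℂ) (γ : ℝ) {T : ℝ} (hT : 0 < T) (i : ι) :
    ‖rt l c s₀ γ T i‖ = ‖c i * exp (-(s₀ * l i))‖ * om (l i / T) := by
  unfold rt
  rw [norm_neg, norm_mul, norm_mul, Complex.norm_exp_ofReal_mul_I, mul_one, Complex.norm_real,
    Real.norm_eq_abs, abs_of_nonneg (om_nonneg (div_nonneg (G.nonneg i) hT.le))]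

/-- absolute convergence of the rotated sum -/
theorem rt_summable (s₀ : ℂ) (γ : ℝ) {T : ℝ} (hT : 0 < T) :
    Summable fun i => ‖rt l c s₀ γ T i‖ := by
  simp only [G.norm_rt s₀ γ hT]
  set b : ℝ := max 0 (A - s₀.re) + 1 with hb
  have hb0 : 0 ≤ b := by have := le_max_left 0 (A - s₀.re); linarith
  have hb1 : A < s₀.re + b := by have := le_max_right 0 (A - s₀.re); linarith
  refine Summable.of_nonneg_of_le (fun i => ?_) (fun i => ?_)
    ((G.sum_tw hb1).mul_left (Real.exp (Real.exp (b * T)) + 1))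
  · exact mul_nonneg (norm_nonneg _) (om_nonneg (div_nonneg (G.nonneg i) hT.le))
  · have h1 : 0 ≤ l i / T := div_nonneg (G.nonneg i) hT.le
    have h2 := om_le (a := b * T) (v := l i / T) (by positivity) h1
    have h3 : b * T * (l i / T) = b * l i := by field_simp
    rw [h3] at h2
    calc ‖c i * exp (-(s₀ * l i))‖ * om (l i / T) ≤
        ‖c i * exp (-(s₀ * l i))‖ * ((Real.exp (Real.exp (b * T)) + 1) * Real.exp (-(b * l i))) :=
          mul_le_mul_of_nonneg_left h2 (norm_nonneg _)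
      _ = _ := by ring

/-- the series is analytic -/
theorem sr_analytic {s : ℂ} (hs : A < s.re) : AnalyticAt ℂ (sr l c) s := by
  set σ : ℝ := (A + s.re) / 2 with hσ
  have hσ1 : A < σ := by rw [hσ]; linarith
  have hσw : σ < s.re := by rw [hσ]; linarith
  have hopen : IsOpen {z : ℂ | σ < z.re} := isOpen_lt continuous_const Complex.continuous_re
  have h1 : DifferentiableOn ℂ (sr l c) {z : ℂ | σ < z.re} := by
    unfold sr
    refine Complex.differentiableOn_tsum_of_summable_norm (G.sum σ hσ1) (fun i => ?_) hopen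
      (fun i z hz => ?_)
    · exact Differentiable.differentiableOn (by fun_prop)
    · rw [norm_mul, norm_exp_mul]
      refine mul_le_mul_of_nonneg_left ?_ (norm_nonneg _)
      apply Real.exp_le_exp.2
      have hz' : σ < z.re := hz
      have := G.nonneg i
      nlinarith
  exact h1.analyticAt (hopen.mem_nhds hσw)

variable {L : ℂ → ℂ} (hL : ∀ s : ℂ, A < s.re → L s = exp (sr l c s))
include hL

theorem an_right {s : ℂ} (hs : A < s.re) : AnalyticAt ℂ L s ∧ L s ≠ 0 := by
  have hopen : IsOpen {z : ℂ | A < z.re} := isOpen_lt continuous_const Complex.continuous_re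
  constructor
  · refine (G.sr_analytic hs).cexp.congr ?_
    filter_upwards [hopen.mem_nhds hs] with z hz
    exact (hL z hz).symm
  · rw [hL s hs]
    exact Complex.exp_ne_zero _

/-- **the rotated law at any point** -/
theorem law {s₀ : ℂ} (hmer : ∀ x : ℝ, 0 ≤ x → s₀.re + x ≤ A → MeromorphicAt L (s₀ + x)) {γ : ℝ}
    (hγ : Real.pi / 2 < γ) :
    ∃ (m : ℤ) (r₀ : ℂ), meromorphicOrderAt L s₀ = m ∧ meromorphicTrailingCoeffAt L s₀ = exp r₀ ∧
      Asy (Lam γ) (RS l c s₀ γ) m r₀ := by
  have := G.cnt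
  set M : ℝ := max 1 (A - s₀.re + 1) with hM
  have hM1 : 1 ≤ M := le_max_left _ _
  have hM0 : 0 < M := by linarith
  have hMA : A < s₀.re + M := by have := le_max_right 1 (A - s₀.re + 1); linarith
  have hMc : (M : ℂ) ≠ 0 := by exact_mod_cast hM0.ne'
  set Φ : ℂ → ℂ := fun w => L (s₀ + M * w) with hΦ
  set l' : ι → ℝ := fun i => M * l i with hl'
  set c' : ι → ℂ := fun i => c i * exp (-(s₀ * l i)) with hc'
  have hsr : ∀ w, sr l' c' w = sr l c (s₀ + M * w) := by
    intro w
    unfold sr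
    refine tsum_congr fun i => ?_
    rw [hc', hl']
    simp only
    rw [mul_assoc, ← Complex.exp_add]
    congr 2
    push_cast
    ring
  have hre : ∀ w : ℂ, (s₀ + M * w).re = s₀.re + M * w.re := fun w => by simp
  have hr : ∀ w : ℂ, 1 < w.re → A < (s₀ + M * w).re := by
    intro w hw
    rw [hre]
    nlinarith
  have hcx : ∀ x : ℝ, (s₀ + M * (x : ℂ)) = s₀ + ((M * x : ℝ) : ℂ) := fun x => by push_cast; ring
  have hmΦ : ∀ x : ℝ, 0 ≤ x → MeromorphicAt Φ (x : ℂ) := by
    intro x hx
    have h1 : MeromorphicAt L (s₀ + M * (x : ℂ)) := by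
      by_cases h : s₀.re + M * x ≤ A
      · rw [hcx]
        exact hmer (M * x) (by positivity) h
      · push Not at h
        exact (G.an_right hL (s := s₀ + M * (x : ℂ)) (by rw [hre]; simpa using h)).1.meromorphicAt
    exact h1.comp_analyticAt (f := L) (g := fun w => s₀ + M * w) (by fun_prop)
  have hord2 : meromorphicOrderAt Φ ((2 : ℝ) : ℂ) = 0 := by
    have h1 := G.an_right hL (s := s₀ + M * ((2 : ℝ) : ℂ)) (hr _ (by simp))
    have h2 : AnalyticAt ℂ Φ ((2 : ℝ) : ℂ) :=
      AnalyticAt.fun_comp (g := L) (f := fun w => s₀ + M * w) h1.1 (by fun_prop)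
    rw [h2.meromorphicOrderAt_eq, h2.analyticOrderAt_eq_zero.2 h1.2]
    rfl
  have hmon : MeromorphicOn Φ ((fun x : ℝ => (x : ℂ)) '' Icc 0 2) := by
    rintro _ ⟨x, hx, rfl⟩
    exact hmΦ x hx.1
  have hcon : IsPreconnected ((fun x : ℝ => (x : ℂ)) '' Icc 0 2) :=
    isPreconnected_Icc.image _ (by fun_prop)
  have htop : ∀ x ∈ Icc (0 : ℝ) 2, meromorphicOrderAt Φ (x : ℂ) ≠ ⊤ := by
    intro x hx
    refine hmon.meromorphicOrderAt_ne_top_of_isPreconnected (x := ((2 : ℝ) : ℂ)) hcon
      ⟨2, ⟨by norm_num, le_rfl⟩, rfl⟩ ⟨x, hx, rfl⟩ ?_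
    rw [hord2]
    simp
  have h0top := htop 0 ⟨le_rfl, by norm_num⟩
  rw [Complex.ofReal_zero] at h0top
  obtain ⟨m, hm⟩ := WithTop.ne_top_iff_exists.1 h0top
  have hsra : ∀ w : ℂ, 1 < w.re → AnalyticAt ℂ (sr l' c') w := by
    intro w hw
    have h1 : sr l' c' = fun w => sr l c (s₀ + M * w) := funext hsr
    rw [h1]
    exact AnalyticAt.fun_comp (g := sr l c) (f := fun w => s₀ + M * w) (G.sr_analytic (hr w hw))
      (by fun_prop)
  obtain ⟨η, B, L', r₁, hB, hB2, hr1⟩ := bel_c Φ (sr l' c')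
    (fun x hx => hmΦ x hx.1) htop hsra
    (fun w hw => by rw [hΦ]; simp only; rw [hsr, hL _ (hr w hw)]) m hm.symm
  have D' : SD l' (fun i => -c' i) := by
    refine ⟨fun i => mul_nonneg hM0.le (G.nonneg i), ?_⟩
    have h1 := G.sum_tw (s₀ := s₀) (b := 2 * M) (by linarith)
    refine h1.congr fun i => ?_
    rw [norm_neg, hc', hl']
    simp only
    congr 2
    ring
  have hneg : ∀ w, sr l' (fun x => -c' x) w = -sr l' c' w := by
    intro w
    unfold sr
    rw [← tsum_neg]
    exact tsum_congr fun i => by ring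
  obtain ⟨C, T₀, hC, hT₀, h⟩ := refc D' hγ m r₁ L' η B hB (fun w h1 h2 h3 => by
    rw [hneg, neg_neg]
    exact hB2 w h1 h2 h3)
  have hRS : ∀ T : ℝ, 0 < T → RS l c s₀ γ T = cm l' (fun x => -c' x) γ (M * T) := by
    intro T hT
    unfold RS cm rt
    refine tsum_congr fun i => ?_
    have e : l' i / (M * T) = l i / T := by rw [hl']; field_simp
    rw [e, hc']
    simp only
    ring
  -- back to `L`
  have hL0 : MeromorphicAt L s₀ := by
    have h1 := hmΦ 0 le_rfl
    rw [Complex.ofReal_zero] at h1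
    have h3 : MeromorphicAt (Φ ∘ fun z => (z - s₀) / M) s₀ := by
      refine MeromorphicAt.comp_analyticAt (f := Φ) (g := fun z => (z - s₀) / M) ?_ (by fun_prop)
      simpa using h1
    have h4 : (Φ ∘ fun z => (z - s₀) / M) = L := by
      funext z
      simp only [hΦ, Function.comp_apply]
      congr 1
      field_simp
      ring
    rwa [h4] at h3
  have hmo : meromorphicOrderAt Φ 0 = meromorphicOrderAt L s₀ := by
    have h5 : meromorphicOrderAt (L ∘ fun w => s₀ + M * w) 0 =
        meromorphicOrderAt L (s₀ + M * 0) := by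
      refine meromorphicOrderAt_comp_of_deriv_ne_zero (f := L) (g := fun w => s₀ + M * w)
        (by fun_prop) ?_
      have : deriv (fun w : ℂ => s₀ + M * w) 0 = M := by
        have h6 : HasDerivAt (fun w : ℂ => s₀ + M * w) (M * 1) 0 :=
          ((hasDerivAt_id (0 : ℂ)).const_mul (M : ℂ)).const_add s₀
        rw [h6.deriv, mul_one]
      rw [this]
      exact hMc
    rw [mul_zero, add_zero] at h5
    exact h5
  have hm' : meromorphicOrderAt L s₀ = m := by rw [← hmo]; exact hm.symm
  obtain ⟨g, hg1, hg2, hg3⟩ := (meromorphicOrderAt_eq_int_iff hL0).1 hm'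
  have ht1 := hg1.meromorphicTrailingCoeffAt_of_ne_zero_of_eq_nhdsNE (n := m) hg2 hg3
  have hg1' : AnalyticAt ℂ (fun w => (M : ℂ) ^ m * g (s₀ + M * w)) 0 :=
    analyticAt_const.mul (AnalyticAt.fun_comp (g := g) (f := fun w => s₀ + M * w)
      (by simpa using hg1) (by fun_prop))
  have ht2 := hg1'.meromorphicTrailingCoeffAt_of_ne_zero_of_eq_nhdsNE (n := m) (f := Φ)
    (by simpa using ⟨zpow_ne_zero m hMc, hg2⟩) (by
      have ht : Tendsto (fun w : ℂ => s₀ + M * w) (𝓝[≠] 0) (𝓝[≠] s₀) := by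
        refine tendsto_nhdsWithin_of_tendsto_nhds_of_eventually_within _ ?_ ?_
        · have : ContinuousAt (fun w : ℂ => s₀ + M * w) 0 := by fun_prop
          have h6 := this.tendsto
          rw [mul_zero, add_zero] at h6
          exact h6.mono_left nhdsWithin_le_nhds
        · filter_upwards [self_mem_nhdsWithin] with w hw
          have hw' : w ≠ 0 := hw
          simpa using ⟨hM0.ne', hw'⟩
      filter_upwards [ht.eventually hg3] with w hw
      rw [hΦ]
      simp only
      rw [hw]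
      simp only [add_sub_cancel_left, sub_zero, smul_eq_mul, mul_zpow]
      ring)
  simp only [mul_zero, add_zero] at ht2
  refine ⟨m, r₁ - m * Real.log M, hm', ?_, ?_⟩
  · rw [ht1, Complex.exp_sub, hr1, ht2]
    have h1 : exp (m * (Real.log M : ℂ)) = (M : ℂ) ^ m := by
      rw [Complex.exp_int_mul, ← Complex.ofReal_exp, Real.exp_log hM0]
    rw [h1]
    field_simp [zpow_ne_zero m hMc]
  · refine Asymptotics.IsBigO.of_bound C ?_
    filter_upwards [eventually_ge_atTop T₀, eventually_gt_atTop (0 : ℝ)] with T hT hT0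
    have hMT : T₀ ≤ M * T := by nlinarith
    have h1 := h (M * T) hMT
    rw [Lam_eq, Real.log_mul hM0.ne' hT0.ne'] at h1
    rw [hRS T hT0]
    have e : ‖(1 / T : ℝ)‖ = 1 / T := by rw [Real.norm_eq_abs, abs_of_pos (by positivity)]
    rw [e, ← div_eq_mul_one_div]
    have h2 : C / (M * T) ≤ C / T := by
      apply div_le_div_of_nonneg_left hC hT0
      nlinarith
    refine le_trans (le_of_eq ?_) (h1.trans h2)
    congr 1
    push_cast
    ring

end GD

end Pool.Agent.X156.GL
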