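import Pool.Agent.X156.GL.Sum2
import Pool.Agent.X156.GL.CS
import Pool.Agent.X287.CR9

/-!
# Logarithmic derivatives
-/

set_option autoImplicit false

namespace Pool.Agent.X156.GL

open Complex Filter Topology Set Asymptotics
open Pool.Agent.X287.CR Pool.Agent.W189.ML Pool.Agent.W189.LC Pool.Agent.W187.UR

variable {ι : Type} {A : ℝ} {l : ι → ℝ} {c : ι → ℂ}

/-- **Rotated summation of the logarithmic derivative.** -/
theorem GD.logDeriv_law (G : GD A l c) {L : ℂ → ℂ} (hL : ∀ s : ℂ, A < s.re → L s = exp (sr l c s)) {s₀ : ℂ}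
    (hmer : ∀ x : ℝ, 0 ≤ x → s₀.re + x ≤ A → MeromorphicAt L (s₀ + x)) (han : AnalyticAt ℂ L s₀)
    (hne : L s₀ ≠ 0) {γ : ℝ} (hγ : Real.pi / 2 < γ) :
    (fun T : ℝ => DS l (fun i => (-(l i : ℂ)) ^ 1 * c i) s₀ γ T - logDeriv L s₀) =O[atTop]
      (fun T : ℝ => 1 / T) := by
  refine (G.derived 1).value (f := logDeriv L) (fun s hs => ?_) (fun x hx0 hx1 => ?_) ?_ hγ
  · have hopen : IsOpen {z : ℂ | A < z.re} := isOpen_lt continuous_const Complex.continuous_re
    have h1 : L =ᶠ[𝓝 s] fun z => exp (sr l c z) := by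
      filter_upwards [hopen.mem_nhds hs] with z hz
      exact hL z hz
    have h2 : HasDerivAt (fun z => exp (sr l c z)) (exp (sr l c s) * deriv (sr l c) s) s :=
      (G.sr_analytic hs).differentiableAt.hasDerivAt.cexp
    rw [logDeriv_apply, h1.deriv_eq, h2.deriv, hL s hs, mul_div_cancel_left₀ _ (Complex.exp_ne_zero _),
      G.deriv_sr hs]
    simp only [pow_one]
  · have h1 := hmer x hx0 hx1
    exact h1.deriv.div h1
  · exact han.deriv.div han hne

variable {X : Type} {d : ℕ} {θ : ℝ} {q : X → ℕ} {α : X → Fin d → ℂ}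

/-- the term `(∑ α^k) log q · q^{-k s₀} e^{iγ k log q / T} / Γ(1 + k log q / T)`, `k = x.2 + 1` -/
noncomputable def lt (q : X → ℕ) (α : X → Fin d → ℂ) (s₀ : ℂ) (γ T : ℝ) (x : X × ℕ) : ℂ :=
  (∑ i, α x.1 i ^ (x.2 + 1)) * Real.log (q x.1) * exp (-(s₀ * lam q x)) *
    exp ((γ * (lam q x / T) : ℝ) * I) / ((Real.Gamma (1 + lam q x / T) : ℝ) : ℂ)

theorem lt_eq (s₀ : ℂ) (γ T : ℝ) (x : X × ℕ) :
    (-((el (fun v => (q v : ℝ)) x : ℝ) : ℂ)) ^ 1 * ec α x * exp (-(s₀ * el (fun v => (q v : ℝ)) x)) *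
      exp ((γ * (el (fun v => (q v : ℝ)) x / T) : ℝ) * I) * (om (el (fun v => (q v : ℝ)) x / T) : ℂ) =
    -lt q α s₀ γ T x := by
  unfold lt ec el om lam
  have hk : ((x.2 : ℂ) + 1) ≠ 0 := by exact_mod_cast (Nat.succ_ne_zero x.2)
  push_cast
  field_simp

/-- **the law for the logarithmic derivative of an Euler product** -/
theorem logDeriv_cs (G : CSys θ q α) {L : ℂ → ℂ}
    (hL : ∀ s : ℂ, 1 + θ < s.re → HasProd (fac q α s) (L s)) {s₀ : ℂ}
    (hmer : ∀ x : ℝ, 0 ≤ x → s₀.re + x ≤ 1 + θ → MeromorphicAt L (s₀ + x)) (han : AnalyticAt ℂ L s₀)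
    (hne : L s₀ ≠ 0) {γ : ℝ} (hγ : Real.pi / 2 < γ) :
    (∀ T : ℝ, 0 < T → Summable fun x => ‖lt q α s₀ γ T x‖) ∧
    (fun T : ℝ => (∑' x, lt q α s₀ γ T x) + logDeriv L s₀) =O[atTop] (fun T : ℝ => 1 / T) := by
  have E := es_of G
  constructor
  · intro T hT
    have h := (E.gd.derived 1).ds_summable s₀ γ hT
    refine h.congr fun x => ?_
    rw [lt_eq, norm_neg]
  · have h := E.gd.logDeriv_law (L := L) (fun s hs => by
      have h2 := E.hasProd hs
      rw [ef_fac G] at h2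
      exact (hL s hs).unique h2) hmer han hne hγ
    have h1 := IsBigO.neg_left h
    refine h1.congr_left fun T => ?_
    have h3 : DS (el fun v => (q v : ℝ)) (fun i => (-((el (fun v => (q v : ℝ)) i : ℝ) : ℂ)) ^ 1 * ec α i)
        s₀ γ T = -∑' x, lt q α s₀ γ T x := by
      unfold DS
      rw [← tsum_neg]
      exact tsum_congr fun x => lt_eq s₀ γ T x
    rw [h3]
    ring

end Pool.Agent.X156.GL
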