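import Pool.Agent.X156.GL.Theta

/-!
# Equivariant regulators of tuples of units
-/

set_option autoImplicit false

open Filter Topology Asymptotics
open IsDedekindDomain NumberField

namespace Pool.Agent.X156.GL.Theta

section defs
variable {K : Type} [Field K] {G : Type} [CommGroup G] [Fintype G] {H : Type} [Field H] [Algebra K H]

/-- `λ_i(u) = - ∑_σ log|σ(u)|_{w_i} σ⁻¹ ∈ ℂ[G]`, where `ℓ i = log|·|_{w_i}`. -/
noncomputable def lam {r : ℕ} (art : G ≃* Gal(H/K)) (ℓ : Fin r → H → ℝ) (i : Fin r) (u : H) :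
    MonoidAlgebra ℂ G := ∑ g : G, MonoidAlgebra.single g⁻¹ (-(ℓ i (art g u)) : ℂ)

/-- The coefficient of `g` in the regulator `det (λ_j(u_i))_{i,j} ∈ ℂ[G]`. -/
noncomputable def reg {r : ℕ} (art : G ≃* Gal(H/K)) (ℓ : Fin r → H → ℝ) (u : Fin r → H) (g : G) : ℂ :=
  (Matrix.det (Matrix.of fun i j => lam art ℓ j (u i))).coeff g

/-- The group generated by the regulators of the `r`-tuples of elements of `E`. -/
noncomputable def regSpan {r : ℕ} (art : G ≃* Gal(H/K)) (ℓ : Fin r → H → ℝ) (E : Set H) : Set (G → ℂ) :=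
  (AddSubgroup.closure {f : G → ℂ | ∃ u : Fin r → H, (∀ i, u i ∈ E) ∧ f = reg art ℓ u} : Set (G → ℂ))

/-- `f` is a rational multiple of an element of `L`. -/
def InQ (f : G → ℂ) (L : Set (G → ℂ)) : Prop := ∃ N : ℕ, 1 ≤ N ∧ (fun g => N * f g) ∈ L

end defs

variable {G : Type} [CommGroup G] [Fintype G]

/-- **rational multiples** -/
theorem inQ_iff {θ : G → ℂ} {a : ℝ → G → ℂ}
    (h : ∀ g, (fun T : ℝ => a T g - θ g) =O[atTop] (fun T : ℝ => 1 / T)) (L : Set (G → ℂ)) :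
    (InQ θ L ↔ ∃ N : ℕ, 1 ≤ N ∧ ∃ f ∈ L, ∀ g, (fun T : ℝ => N * a T g - f g) =O[atTop]
      (fun T : ℝ => 1 / T)) ∧
    ((∀ B : ℝ, {f : G → ℂ | f ∈ L ∧ ∀ g, ‖f g‖ ≤ B}.Finite) →
      (InQ θ L ↔ ∃ N : ℕ, 1 ≤ N ∧ ∀ ε > 0, ∀ T₀ : ℝ, ∃ T ≥ T₀, ∃ f ∈ L, ∀ g, ‖N * a T g - f g‖ < ε)) := by
  have hN : ∀ (N : ℕ) (g : G), (fun T : ℝ => N * a T g - N * θ g) =O[atTop] (fun T : ℝ => 1 / T) := by
    intro N g
    refine ((h g).const_mul_left (N : ℂ)).congr_left fun T => by ring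
  constructor
  · unfold InQ
    exact exists_congr fun N => and_congr_right fun _ =>
      (approach_iff (θ := fun g => N * θ g) (a := fun T g => N * a T g) (hN N) L).1
  · intro hL
    unfold InQ
    exact exists_congr fun N => and_congr_right fun _ =>
      (approach_iff (θ := fun g => N * θ g) (a := fun T g => N * a T g) (hN N) L).2 hL

end Pool.Agent.X156.GL.Theta
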