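import Pool.Agent.X156.GL.Euler

/-!
# Zeta functions of arithmetic schemes and rotated sums over closed points
-/

set_option autoImplicit false

namespace Pool.Agent.X156.GL.Sch

open Filter Topology Asymptotics AlgebraicGeometry
open Pool.Agent.X287.CR Pool.Agent.W189.ML Pool.Agent.W189.LC Pool.Agent.W187.UR

/-- The closed points of `X`. -/
abbrev Pts (X : Scheme.{0}) : Type := {x : X // IsClosed ({x} : Set X)}

/-- `N(x)`, the order of the residue field of a closed point. -/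
noncomputable def N (X : Scheme.{0}) (x : Pts X) : ℕ := Nat.card (X.residueField x.1)

/-- The properties of a scheme of finite type over `ℤ` of dimension at most `d` that are used: the residue
fields of the closed points are finite, and `∑ N(x)^(-σ) < ∞` for `σ > d`. -/
structure IsArithmetic (X : Scheme.{0}) (d : ℕ) : Prop where
  two_le : ∀ x : Pts X, 2 ≤ N X x
  summable : ∀ σ : ℝ, (d : ℝ) < σ → Summable fun x : Pts X => (N X x : ℝ) ^ (-σ)

/-- `Z` is the zeta function of `X` for `Re s > d`, continued to a function that is meromorphic at the points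
of the horizontal segment from `s₀` to the line `Re s = d`. -/
structure IsZeta (X : Scheme.{0}) (d : ℕ) (s₀ : ℂ) (Z : ℂ → ℂ) : Prop where
  prod : ∀ s : ℂ, (d : ℝ) < s.re → HasProd (fun x : Pts X => (1 - (N X x : ℂ) ^ (-s))⁻¹) (Z s)
  mero : ∀ x : ℝ, 0 ≤ x → s₀.re + x ≤ d → MeromorphicAt Z (s₀ + x)

/-- The term of `S(T)` for the closed point `x.1` and the exponent `k = x.2 + 1`. -/
noncomputable def term (X : Scheme.{0}) (s₀ : ℂ) (γ T : ℝ) (x : Pts X × ℕ) : ℂ :=
  -((N X x.1 : ℂ) ^ (-s₀)) ^ (x.2 + 1) *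
      Complex.exp ((γ * ((x.2 + 1) * Real.log (N X x.1) / T) : ℝ) * Complex.I) /
    (((x.2 + 1) * Real.Gamma (1 + (x.2 + 1) * Real.log (N X x.1) / T) : ℝ) : ℂ)

/-- The rotated sum over the closed points
`S(T) = - ∑_x ∑_{k ≥ 1} N(x)^{-k s₀} exp(iγ k log N(x) / T) / (k Γ(1 + k log N(x) / T))`. -/
noncomputable def S (X : Scheme.{0}) (s₀ : ℂ) (γ T : ℝ) : ℂ := ∑' x, term X s₀ γ T x

/-- The constant `Λ(γ) = ∫_0^∞ (e^{-t} - e^{iγt} / Γ(1 + t)) dt / t`. -/
noncomputable def Lambda (γ : ℝ) : ℂ := ∫ t in Set.Ioi (0 : ℝ),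
  (Complex.exp (-(t : ℂ)) - Complex.exp ((γ * t : ℝ) * Complex.I) * ((Real.Gamma (1 + t))⁻¹ : ℝ)) / t

variable {X : Scheme.{0}} {d : ℕ}

theorem es (h : IsArithmetic X d) :
    ES (d : ℝ) (fun x : Pts X => (N X x : ℝ)) (fun _ (_ : Fin 1) => (1 : ℂ)) where
  cnt := by
    have h1 := (h.summable (d + 1) (by linarith)).countable_support
    have h2 : Function.support (fun x : Pts X => (N X x : ℝ) ^ (-((d : ℝ) + 1))) = Set.univ := by
      ext x
      simp only [Function.mem_support, Set.mem_univ, iff_true]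
      have : (0 : ℝ) < N X x := by exact_mod_cast (by have := h.two_le x; omega)
      exact (Real.rpow_pos_of_pos this _).ne'
    rw [h2] at h1
    exact Set.countable_univ_iff.1 h1
  gap := ⟨2, by norm_num, fun x => by exact_mod_cast h.two_le x⟩
  le := fun x i => by
    rw [norm_one]
    exact Real.one_le_rpow (by exact_mod_cast (by have := h.two_le x; omega)) (Nat.cast_nonneg d)
  sum := fun σ hσ => by simpa using h.summable σ hσ

theorem cpow_eq {n : ℕ} (hn : 2 ≤ n) (s : ℂ) : (n : ℂ) ^ (-s) = Complex.exp (-(s * Real.log n)) := by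
  have h0 : (n : ℂ) ≠ 0 := by exact_mod_cast (by omega)
  rw [Complex.cpow_def_of_ne_zero h0]
  congr 1
  have hl : ((Real.log n : ℝ) : ℂ) = Complex.log (n : ℂ) := by
    rw [Complex.ofReal_log (Nat.cast_nonneg _)]
    push_cast
    rfl
  rw [hl]
  ring

theorem ef_eq (h : IsArithmetic X d) (s : ℂ) :
    ef (fun x : Pts X => (N X x : ℝ)) (fun _ (_ : Fin 1) => (1 : ℂ)) s =
      fun x : Pts X => (1 - (N X x : ℂ) ^ (-s))⁻¹ := by
  funext x
  unfold ef
  rw [Fin.prod_univ_one, one_mul, cpow_eq (h.two_le x)]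

theorem rt_eq (h : IsArithmetic X d) (s₀ : ℂ) (γ T : ℝ) (x : Pts X × ℕ) :
    rt (el fun x : Pts X => (N X x : ℝ)) (ec fun _ (_ : Fin 1) => (1 : ℂ)) s₀ γ T x =
      term X s₀ γ T x := by
  unfold rt term ec el om
  rw [Fin.sum_univ_one, one_pow]
  have e : Complex.exp (-(s₀ * (((x.2 + 1) * Real.log (N X x.1) : ℝ) : ℂ))) =
      ((N X x.1 : ℂ) ^ (-s₀)) ^ (x.2 + 1) := by
    rw [cpow_eq (h.two_le x.1), ← Complex.exp_nat_mul]
    congr 1
    push_cast
    ring
  rw [e]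
  have hk : ((x.2 : ℂ) + 1) ≠ 0 := by exact_mod_cast (Nat.succ_ne_zero x.2)
  push_cast
  simp only [div_eq_mul_inv, mul_inv]
  ring

theorem RS_eq (h : IsArithmetic X d) (s₀ : ℂ) (γ T : ℝ) :
    RS (el fun x : Pts X => (N X x : ℝ)) (ec fun _ (_ : Fin 1) => (1 : ℂ)) s₀ γ T = S X s₀ γ T :=
  tsum_congr fun x => rt_eq h s₀ γ T x

/-- absolute convergence -/
theorem summable (h : IsArithmetic X d) (s₀ : ℂ) (γ : ℝ) {T : ℝ} (hT : 0 < T) :
    Summable fun x => ‖term X s₀ γ T x‖ := by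
  have h1 := (es h).gd.rt_summable s₀ γ hT
  simpa only [rt_eq h] using h1

/-- the rotated law -/
theorem law (h : IsArithmetic X d) {s₀ : ℂ} {Z : ℂ → ℂ} (hZ : IsZeta X d s₀ Z) {γ : ℝ}
    (hγ : Real.pi / 2 < γ) : ∃ (m : ℤ) (r₀ : ℂ), meromorphicOrderAt Z s₀ = m ∧
      meromorphicTrailingCoeffAt Z s₀ = Complex.exp r₀ ∧ Asy (Lambda γ) (S X s₀ γ) m r₀ := by
  obtain ⟨m, r₀, h1, h2, h3⟩ := (es h).law (L := Z) (fun s hs => by
    rw [ef_eq h]
    exact hZ.prod s hs) hZ.mero hγ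
  refine ⟨m, r₀, h1, h2, ?_⟩
  have h4 : RS (el fun x : Pts X => (N X x : ℝ)) (ec fun _ (_ : Fin 1) => (1 : ℂ)) s₀ γ =
      S X s₀ γ := funext fun T => RS_eq h s₀ γ T
  rw [h4] at h3
  exact h3

end Pool.Agent.X156.GL.Sch
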