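import Pool.Agent.X156.GL.Law

/-!
# Rotated summation of Dirichlet series at every point of the plane

`f(s) = ∑ c_i e^{-s l_i}` for `Re s > A`, absolutely convergent, `f` meromorphic at the points of the horizontal segment from
`s₀` to `Re s = A` and analytic at `s₀`: then `∑ c_i e^{-s₀ l_i} e^{iγ l_i/T} / Γ(1 + l_i/T) = f(s₀) + O(1/T)`, `γ > π/2`.
-/

set_option autoImplicit false

namespace Pool.Agent.X156.GL

open Complex MeasureTheory Filter Topology Set
open scoped Interval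
open Pool.Agent.X287.CR Pool.Agent.W189.ML Pool.Agent.W189.LC Pool.Agent.W187.UR
open Pool.Agent.W338.UR hiding FF right

/-- decay of the kernel, any power -/
theorem dexp_n {κ x : ℝ} (hκ : 0 < κ) (hx : 0 ≤ x) (n : ℕ) :
    Real.exp (-(κ * Real.exp x)) * x ^ n ≤ (2 * n.factorial / κ ^ 2) * Real.exp (-x) := by
  have h1 : x ^ n ≤ n.factorial * Real.exp x := by
    have := Real.pow_div_factorial_le_exp x hx n
    rw [div_le_iff₀ (by positivity)] at this
    linarith
  set y : ℝ := κ * Real.exp x with hy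
  have hy0 : 0 < y := by positivity
  have h2 : Real.exp (-y) ≤ 2 / y ^ 2 := by
    have h3 := Real.pow_div_factorial_le_exp y hy0.le 2
    have h4 : ((2 : ℕ).factorial : ℝ) = 2 := by norm_num
    rw [h4] at h3
    rw [Real.exp_neg, inv_le_comm₀ (Real.exp_pos _) (by positivity), inv_div]
    exact h3
  calc Real.exp (-y) * x ^ n ≤ (2 / y ^ 2) * (n.factorial * Real.exp x) :=
        mul_le_mul h2 h1 (by positivity) (by positivity)
    _ = _ := by
      rw [hy, Real.exp_neg]
      have := Real.exp_pos x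
      field_simp

/-- bound for the integral over a horizontal side -/
theorem horiz_n {Ψ : ℂ → ℂ} {a b y κ A : ℝ} (n : ℕ) (hκ : 0 < κ) (ha : 0 ≤ a) (hab : a ≤ b)
    (hA : 0 ≤ A) (hy : Real.cos y ≤ -κ) (hΨ : ∀ x ∈ Icc a b, ‖Ψ (x + y * I)‖ ≤ A * x ^ n) :
    ‖∫ x in a..b, K (x + y * I) * Ψ (x + y * I)‖ ≤ A * (2 * n.factorial / κ ^ 2) := by
  set Cn : ℝ := 2 * n.factorial / κ ^ 2 with hCn
  have hCn0 : 0 ≤ Cn := by positivity
  have h1 : ‖∫ x in a..b, K (x + y * I) * Ψ (x + y * I)‖ ≤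
      ∫ x in a..b, A * Cn * Real.exp (-x) := by
    refine intervalIntegral.norm_integral_le_of_norm_le hab ?_ (by
      exact Continuous.intervalIntegrable (by fun_prop) _ _)
    refine ae_of_all _ fun x hx => ?_
    have hx' : x ∈ Icc a b := ⟨hx.1.le, hx.2⟩
    have hx0 : 0 ≤ x := ha.trans hx'.1
    rw [norm_mul]
    calc ‖K (x + y * I)‖ * ‖Ψ (x + y * I)‖ ≤ Real.exp (-(κ * Real.exp x)) * (A * x ^ n) :=
          mul_le_mul (norm_K_neg hy) (hΨ x hx') (norm_nonneg _) (Real.exp_pos _).le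
      _ = A * (Real.exp (-(κ * Real.exp x)) * x ^ n) := by ring
      _ ≤ A * (Cn * Real.exp (-x)) := mul_le_mul_of_nonneg_left (dexp_n hκ hx0 n) hA
      _ = _ := by ring
  have h2 : ∫ x in a..b, A * Cn * Real.exp (-x) =
      A * Cn * (Real.exp (-a) - Real.exp (-b)) := by
    rw [intervalIntegral.integral_const_mul, intervalIntegral.integral_comp_neg
      (f := Real.exp), integral_exp]
  rw [h2] at h1
  refine h1.trans ?_
  have h3 : Real.exp (-a) ≤ 1 := Real.exp_le_one_iff.2 (by linarith)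
  have h4 := Real.exp_pos (-b)
  have h5 : 0 ≤ A * Cn := by positivity
  nlinarith

/-- `g` is differentiable and has polynomial growth in the strip below the segment `[0, 2]`. -/
structure Bf (r₀ : ℂ) (n : ℕ) (η B : ℝ) (g : ℂ → ℂ) : Prop where
  hη : 0 < η
  hB : 0 ≤ B
  diff : ∀ w : ℂ, 0 < w.re → w.re ≤ 2 → -η ≤ w.im → w.im < 0 → DifferentiableAt ℂ g w
  bound : ∀ w : ℂ, 0 < w.re → w.re ≤ 2 → -η ≤ w.im → w.im < 0 →
    ‖g w - r₀‖ ≤ B * ‖w‖ * (1 + (‖w‖ / -w.im) ^ n)

/-- the part on which the series is the function `g` -/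
theorem left_n {γ : ℝ} (hγ : Real.pi / 2 < γ) {r₀ : ℂ} {n : ℕ} {η B : ℝ} {g : ℂ → ℂ}
    (H : Bf r₀ n η B g) : ∃ C : ℝ, 0 ≤ C ∧ ∀ T : ℝ, (Real.pi + γ) / η + (1 + γ) + 1 ≤ T →
    ‖∫ y in (-Real.pi)..(th γ), K (((2 * T : ℝ) : ℂ) + y * I) *
      (g (ww γ T (((2 * T : ℝ) : ℂ) + y * I)) - r₀)‖ ≤ C / T := by
  obtain ⟨hη, hB, hLd, hLb⟩ := H
  obtain ⟨hθ1, hθ2, hθ3, hκ0⟩ := th_facts hγ
  have hpi := Real.pi_pos
  have hpi4 := Real.pi_lt_four
  set θ : ℝ := th γ with hθ
  set κ : ℝ := -Real.cos θ with hκ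
  have hκ1 : κ ≤ 1 := by
    have := Real.neg_one_le_cos θ
    rw [hκ]; linarith
  set δ : ℝ := γ - θ with hδ
  have hδ0 : 0 < δ := by rw [hδ]; linarith
  set a : ℝ := 1 + γ with ha
  have hγ0 : 0 < γ := by linarith
  have ha1 : 1 ≤ a := by rw [ha]; linarith
  set A : ℝ := B * 5 * (1 + (5 / δ) ^ n) with hA
  have hA0 : 0 ≤ A := by positivity
  set Cn : ℝ := 2 * (n + 1).factorial / κ ^ 2 with hCn
  refine ⟨Real.exp (Real.exp a) * (A * a ^ (n + 1)) * (2 * Real.pi) + A * Cn + A * Cn, by positivity,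
    fun T hT => ?_⟩
  have hq : 0 < (Real.pi + γ) / η := by positivity
  have hT1 : 1 ≤ T := by linarith
  have hTa : a ≤ T := by linarith
  have hT0 : 0 < T := by linarith
  set b : ℝ := 2 * T with hb
  have hab : a ≤ b := by linarith
  set Ψ : ℂ → ℂ := fun z => g (ww γ T z) - r₀ with hΨ
  have hwd : Differentiable ℂ (ww γ T) := by unfold ww; fun_prop
  have hAT : 0 ≤ A / T := by positivity
  have hrect : ∀ z : ℂ, a ≤ z.re → z.re ≤ b → -Real.pi ≤ z.im → z.im ≤ θ →
      DifferentiableAt ℂ Ψ z ∧ ‖Ψ z‖ ≤ A / T * z.re ^ (n + 1) := by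
    intro z h1 h2 h3 h4
    have hz0 : 0 < z.re := by linarith
    have hz1 : 1 ≤ z.re := by linarith
    obtain ⟨h5, h6, h7, h8⟩ := dom hη hγ hT hz0 h2 h3 h4
    have hzn : ‖z - γ * I‖ ≤ 5 * z.re := by
      have e1 := Complex.norm_le_abs_re_add_abs_im (z - γ * I)
      have e2 : (z - γ * I).re = z.re := by simp
      have e3 : (z - γ * I).im = z.im - γ := by simp
      rw [e2, e3, abs_of_pos hz0] at e1
      have e4 : |z.im - γ| ≤ Real.pi + γ := by
        rw [abs_le]; constructor <;> linarith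
      have e5 : Real.pi + γ ≤ 4 * z.re := by
        have : a = 1 + γ := ha
        nlinarith
      linarith
    have hwn : ‖ww γ T z‖ ≤ 5 * z.re / T := by
      unfold ww
      rw [norm_div, Complex.norm_real, Real.norm_eq_abs, abs_of_pos hT0]
      exact div_le_div_of_nonneg_right hzn hT0.le
    constructor
    · exact (DifferentiableAt.comp (g := g) (f := ww γ T) z (hLd _ h5 h6 h7 h8) (hwd z)).sub_const _
    · refine (hLb _ h5 h6 h7 h8).trans ?_
      have h9 : -(ww γ T z).im = (γ - z.im) / T := by rw [ww_im]; ring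
      have h10 : ‖ww γ T z‖ / -(ww γ T z).im ≤ 5 / δ * z.re := by
        rw [h9, div_le_iff₀ (by
          have : 0 < γ - z.im := by linarith
          positivity)]
        have h11 : δ ≤ γ - z.im := by linarith
        calc ‖ww γ T z‖ ≤ 5 * z.re / T := hwn
          _ = 5 / δ * z.re * (δ / T) := by field_simp
          _ ≤ 5 / δ * z.re * ((γ - z.im) / T) := by gcongr
      have h12 : 0 ≤ ‖ww γ T z‖ / -(ww γ T z).im :=
        div_nonneg (norm_nonneg _) (by linarith)
      have h13 : (‖ww γ T z‖ / -(ww γ T z).im) ^ n ≤ (5 / δ) ^ n * z.re ^ n := by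
        rw [← mul_pow]
        exact pow_le_pow_left₀ h12 h10 n
      have h14 : (1 : ℝ) ≤ z.re ^ n := one_le_pow₀ hz1
      calc B * ‖ww γ T z‖ * (1 + (‖ww γ T z‖ / -(ww γ T z).im) ^ n) ≤
            B * (5 * z.re / T) * (z.re ^ n + (5 / δ) ^ n * z.re ^ n) := by
            gcongr
        _ = A / T * z.re ^ (n + 1) := by rw [hA]; ring
  -- Cauchy's theorem
  have E6 := shift (f := fun z => K z * Ψ z) (a := a) (b := b) (θ := θ) (by
    intro z hz
    rw [mem_reProdIm, uIcc_of_le hab, uIcc_of_le (by linarith)] at hz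
    exact ((differentiable_K z).mul (hrect z hz.1.1 hz.1.2 hz.2.1 hz.2.2).1).differentiableWithinAt)
  have E7 : ‖∫ y in (-Real.pi)..θ, K (a + y * I) * Ψ (a + y * I)‖ ≤
      Real.exp (Real.exp a) * (A / T * a ^ (n + 1)) * (2 * Real.pi) := by
    have h1 : ‖∫ y in (-Real.pi)..θ, K (a + y * I) * Ψ (a + y * I)‖ ≤
        (Real.exp (Real.exp a) * (A / T * a ^ (n + 1))) * |θ - -Real.pi| := by
      refine intervalIntegral.norm_integral_le_of_norm_le_const fun y hy => ?_
      rw [uIoc_of_le (by linarith)] at hy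
      rw [norm_mul]
      have h2 := (hrect (a + y * I) (by simp) (by simpa using hab) (by simpa using hy.1.le)
        (by simpa using hy.2)).2
      have h3 : ((a : ℂ) + y * I).re = a := by simp
      rw [h3] at h2
      exact mul_le_mul (norm_K_le a y) h2 (norm_nonneg _) (Real.exp_pos _).le
    have h4 : |θ - -Real.pi| ≤ 2 * Real.pi := by
      rw [abs_of_nonneg (by linarith)]; linarith
    refine h1.trans ?_
    gcongr
  have E8 : ‖∫ x in a..b, K (x + θ * I) * Ψ (x + θ * I)‖ ≤ A / T * Cn := by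
    refine horiz_n (n + 1) hκ0 (by linarith) hab hAT (by rw [hκ]; linarith) fun x hx => ?_
    have h2 := (hrect (x + θ * I) (by simpa using hx.1) (by simpa using hx.2)
      (by simp; linarith) (by simp)).2
    simpa using h2
  have E9 : ‖∫ x in a..b, K (x - Real.pi * I) * Ψ (x - Real.pi * I)‖ ≤ A / T * Cn := by
    have h1 : ∀ x : ℝ, (x : ℂ) - Real.pi * I = x + ((-Real.pi : ℝ) : ℂ) * I := by
      intro x; push_cast; ring
    simp only [h1]
    refine horiz_n (n + 1) hκ0 (by linarith) hab hAT ?_ fun x hx => ?_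
    · rw [Real.cos_neg, Real.cos_pi]; linarith
    · have h2 := (hrect (x + ((-Real.pi : ℝ) : ℂ) * I) (by simpa using hx.1) (by simpa using hx.2)
        (by simp) (by simp; linarith)).2
      simpa using h2
  have h1 : ‖∫ y in (-Real.pi)..θ, K (b + y * I) * Ψ (b + y * I)‖ =
      ‖I * ∫ y in (-Real.pi)..θ, K (b + y * I) * Ψ (b + y * I)‖ := by
    rw [norm_mul, Complex.norm_I, one_mul]
  rw [h1, E6]
  have h2 : (Real.exp (Real.exp a) * (A * a ^ (n + 1)) * (2 * Real.pi) + A * Cn + A * Cn) / T =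
      Real.exp (Real.exp a) * (A / T * a ^ (n + 1)) * (2 * Real.pi) + A / T * Cn + A / T * Cn := by
    ring
  rw [h2]
  refine (norm_sub_le _ _).trans (add_le_add ((norm_add_le _ _).trans (add_le_add ?_ E8)) E9)
  rw [norm_mul, Complex.norm_I, one_mul]
  exact E7

variable {ι : Type} {lam : ι → ℝ} {c : ι → ℂ}

/-- the law for the segment `[0, 2]` -/
theorem sum_base [Countable ι] (D : SD lam c) {γ : ℝ} (hγ : Real.pi / 2 < γ) (r₀ : ℂ) (n : ℕ)
    (g : ℂ → ℂ) (η B : ℝ) (H : Bf r₀ n η B g)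
    (hL2 : ∀ w : ℂ, w.re = 2 → -η ≤ w.im → w.im < 0 → sr lam c w = g w) :
    ∃ C T₀ : ℝ, 0 ≤ C ∧ 1 ≤ T₀ ∧ ∀ T ≥ T₀, ‖cm lam c γ T - r₀‖ ≤ C / T := by
  obtain ⟨hθ1, hθ2, hθ3, hκ0⟩ := th_facts hγ
  have hpi := Real.pi_pos
  have hγ0 : 0 < γ := by linarith
  have hη := H.hη
  obtain ⟨C1, hC1, hleft⟩ := left_n hγ H
  obtain ⟨Q, hQ, hright⟩ := right D hγ0 0 (-r₀)
  set θ : ℝ := th γ with hθ
  set κ : ℝ := -Real.cos θ with hκ
  have hq : 0 < (Real.pi + γ) / η := by positivity
  refine ⟨C1 + Q * (2 / κ ^ 2) + Q, (Real.pi + γ) / η + (1 + γ) + 1, by positivity,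
    by linarith, fun T hT => ?_⟩
  have hT1 : 1 ≤ T := by linarith
  have hT0 : 0 < T := by linarith
  obtain ⟨admF, hJ, hF⟩ := hright T hT1
  set b : ℝ := 2 * T with hb
  have hb0 : 0 ≤ b := by linarith
  have hexpb : Real.exp (-b) ≤ 1 / T := by
    rw [Real.exp_neg, le_div_iff₀ hT0, inv_mul_le_iff₀ (Real.exp_pos _), mul_one]
    have := Real.add_one_le_exp b
    linarith
  -- the rays
  have E1 : ‖∫ x in Ioi b, rho (FF lam c γ 0 (-r₀) T) x‖ ≤ Q / T := by
    have := norm_rays_le' (Φ := FF lam c γ 0 (-r₀) T) (A := 0) (B := Q) hb0 le_rfl hQ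
      (s := Ioi b)
      (fun x hx => by have := hF _ (up_mem (le_of_lt hx)); simpa using this)
      (fun x hx => by have := hF _ (down_mem (le_of_lt hx)); simpa using this)
      subset_rfl measurableSet_Ioi
    refine this.trans ?_
    rw [zero_add, div_eq_mul_one_div]
    exact mul_le_mul_of_nonneg_left hexpb hQ
  -- the upper part
  have E2 : ‖∫ y in θ..Real.pi, K (b + y * I) * FF lam c γ 0 (-r₀) T (b + y * I)‖ ≤
      Q * (2 / κ ^ 2) / T * |Real.pi - θ| := by
    refine intervalIntegral.norm_integral_le_of_norm_le_const fun y hy => ?_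
    rw [uIoc_of_le hθ3] at hy
    rw [norm_mul]
    have h1 : ‖K (b + y * I)‖ ≤ Real.exp (-(κ * Real.exp b)) := by
      refine norm_K_neg ?_
      rw [hκ, neg_neg]
      exact Real.cos_le_cos_of_nonneg_of_le_pi (by linarith) hy.2 hy.1.le
    have h2 := hF (b + y * I) (vert_mem (by linarith [hy.1]) hy.2)
    have h3 : ((b : ℂ) + y * I).re = b := by simp
    rw [h3] at h2
    calc ‖K (b + y * I)‖ * ‖FF lam c γ 0 (-r₀) T (b + y * I)‖
        ≤ Real.exp (-(κ * Real.exp b)) * (Q * b) :=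
          mul_le_mul h1 h2 (norm_nonneg _) (Real.exp_pos _).le
      _ = Q * (Real.exp (-(κ * Real.exp b)) * b) := by ring
      _ ≤ Q * (2 / κ ^ 2 * Real.exp (-b)) := mul_le_mul_of_nonneg_left (dexp_le hκ0 hb0) hQ
      _ ≤ Q * (2 / κ ^ 2 * (1 / T)) := by gcongr
      _ = _ := by ring
  -- the lower part
  have E3 : ‖∫ y in (-Real.pi)..θ, K (b + y * I) * FF lam c γ 0 (-r₀) T (b + y * I)‖ ≤
      C1 / T := by
    have h0 : (∫ y in (-Real.pi)..θ, K (b + y * I) * FF lam c γ 0 (-r₀) T (b + y * I)) =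
        ∫ y in (-Real.pi)..θ, K (b + y * I) * (g (ww γ T (b + y * I)) - r₀) := by
      refine intervalIntegral.integral_congr fun y hy => ?_
      rw [uIcc_of_le (by linarith)] at hy
      have hzr : ((b : ℂ) + y * I).re = b := by simp
      have hzi : ((b : ℂ) + y * I).im = y := by simp
      obtain ⟨d1, d2, d3, d4⟩ := dom hη hγ hT (z := b + y * I) (by rw [hzr]; linarith)
        (by rw [hzr]) (by rw [hzi]; exact hy.1) (by rw [hzi]; exact hy.2)
      have hre : (ww γ T (b + y * I)).re = 2 := by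
        rw [ww_re, hzr, hb]
        field_simp
      have h5 := hL2 _ hre d3 d4
      have h7 : FF lam c γ 0 (-r₀) T (b + y * I) = g (ww γ T (b + y * I)) - r₀ := by
        unfold FF
        rw [h5]
        push_cast
        ring
      simp only [h7]
    rw [h0]
    exact hleft T hT
  -- the sum
  have hii := admF.vint
  have hsub1 : IntervalIntegrable (fun y : ℝ => K (b + y * I) * FF lam c γ 0 (-r₀) T (b + y * I))
      volume (-Real.pi) θ := hii.mono_set (by
        rw [uIcc_of_le (by linarith), uIcc_of_le (by linarith)]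
        exact Icc_subset_Icc le_rfl hθ3)
  have hsub2 : IntervalIntegrable (fun y : ℝ => K (b + y * I) * FF lam c γ 0 (-r₀) T (b + y * I))
      volume θ Real.pi := hii.mono_set (by
        rw [uIcc_of_le (by linarith), uIcc_of_le (by linarith)]
        exact Icc_subset_Icc (by linarith) le_rfl)
  have E4 := intervalIntegral.integral_add_adjacent_intervals hsub1 hsub2
  have hn2 : ‖(2 * Real.pi : ℂ)⁻¹‖ = (2 * Real.pi)⁻¹ := by
    rw [norm_inv, norm_mul, Complex.norm_real, Real.norm_eq_abs, abs_of_pos Real.pi_pos]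
    norm_num
  have hpi3 := Real.pi_gt_three
  have hpt : |Real.pi - θ| ≤ 2 * Real.pi := by
    rw [abs_of_nonneg (by linarith)]; linarith
  have E5 : ‖V b (FF lam c γ 0 (-r₀) T)‖ ≤ C1 / T + Q * (2 / κ ^ 2) / T := by
    unfold V
    rw [← E4, norm_mul, hn2, inv_mul_le_iff₀ (by positivity)]
    refine (norm_add_le _ _).trans ?_
    have hx : 0 ≤ C1 / T := by positivity
    have hy : 0 ≤ Q * (2 / κ ^ 2) / T := by positivity
    have h1 : C1 / T ≤ 2 * Real.pi * (C1 / T) := by nlinarith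
    have h2 : Q * (2 / κ ^ 2) / T * |Real.pi - θ| ≤ Q * (2 / κ ^ 2) / T * (2 * Real.pi) :=
      mul_le_mul_of_nonneg_left hpt hy
    calc _ ≤ C1 / T + Q * (2 / κ ^ 2) / T * |Real.pi - θ| := add_le_add E3 E2
      _ ≤ 2 * Real.pi * (C1 / T) + Q * (2 / κ ^ 2) / T * (2 * Real.pi) := add_le_add h1 h2
      _ = _ := by ring
  have E6 : J (2 * T) (FF lam c γ 0 (-r₀) T) = cm lam c γ T - r₀ := by
    rw [hJ]
    push_cast
    ring
  rw [← E6]
  unfold J
  refine (norm_add_le _ _).trans ((add_le_add E5 E1).trans (le_of_eq ?_))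
  ring

end Pool.Agent.X156.GL
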