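import Pool.Agent.X156.GL.Sum

/-!
# Rotated summation of Dirichlet series at every point of the plane: meromorphic functions
-/

set_option autoImplicit false

namespace Pool.Agent.X156.GL

open Complex Filter Topology Set Asymptotics
open Pool.Agent.X287.CR Pool.Agent.W189.ML Pool.Agent.W189.LC Pool.Agent.W187.UR

/-- the growth below a set of real points -/
def SB (f : ℂ → ℂ) (s : Set ℝ) : Prop := ∃ (η C : ℝ) (n : ℕ), 0 < η ∧ η ≤ 1 ∧ 0 ≤ C ∧
  ∀ w : ℂ, w.re ∈ s → -η ≤ w.im → w.im < 0 → DifferentiableAt ℂ f w ∧ ‖f w‖ ≤ C / (-w.im) ^ n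

theorem SB.union {f : ℂ → ℂ} {s t : Set ℝ} (hs : SB f s) (ht : SB f t) : SB f (s ∪ t) := by
  obtain ⟨η₁, C₁, n₁, a1, a2, a3, a4⟩ := hs
  obtain ⟨η₂, C₂, n₂, b1, b2, b3, b4⟩ := ht
  refine ⟨min η₁ η₂, max C₁ C₂, max n₁ n₂, lt_min a1 b1, (min_le_left _ _).trans a2,
    a3.trans (le_max_left _ _), fun w hw h1 h2 => ?_⟩
  have h3 : -η₁ ≤ w.im := by have := min_le_left η₁ η₂; linarith
  have h4 : -η₂ ≤ w.im := by have := min_le_right η₁ η₂; linarith
  have h5 : 0 < -w.im := by linarith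
  have h6 : -w.im ≤ 1 := by linarith
  have key : ∀ {C : ℝ} {n : ℕ}, 0 ≤ C → C ≤ max C₁ C₂ → n ≤ max n₁ n₂ →
      C / (-w.im) ^ n ≤ max C₁ C₂ / (-w.im) ^ (max n₁ n₂) := by
    intro C n hC hC' hn
    exact div_le_div₀ (hC.trans hC') hC' (by positivity) (pow_le_pow_of_le_one h5.le h6 hn)
  rcases hw with hw | hw
  · obtain ⟨c1, c2⟩ := a4 w hw h3 h2
    exact ⟨c1, c2.trans (key a3 (le_max_left _ _) (le_max_left _ _))⟩
  · obtain ⟨c1, c2⟩ := b4 w hw h4 h2
    exact ⟨c1, c2.trans (key b3 (le_max_right _ _) (le_max_right _ _))⟩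

theorem SB.mono {f : ℂ → ℂ} {s t : Set ℝ} (hst : s ⊆ t) (ht : SB f t) : SB f s := by
  obtain ⟨η, C, n, a1, a2, a3, a4⟩ := ht
  exact ⟨η, C, n, a1, a2, a3, fun w hw => a4 w (hst hw)⟩

theorem SB.empty (f : ℂ → ℂ) : SB f ∅ := ⟨1, 0, 0, one_pos, le_rfl, le_rfl, fun _ hw => hw.elim⟩

theorem sb_nhds {f : ℂ → ℂ} {x : ℝ} (h : MeromorphicAt f (x : ℂ)) : ∃ t ∈ 𝓝 x, SB f t := by
  obtain ⟨n, hn⟩ := h
  set g : ℂ → ℂ := fun z => (z - x) ^ n • f z with hg
  have hg' : AnalyticAt ℂ g x := hn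
  obtain ⟨r₁, hr₁, hd⟩ := Metric.eventually_nhds_iff.1 hg'.eventually_analyticAt
  have hb : ∀ᶠ z in 𝓝 (x : ℂ), ‖g z‖ < ‖g x‖ + 1 :=
    hg'.continuousAt.norm.eventually_lt continuousAt_const (by linarith)
  obtain ⟨r₂, hr₂, hb⟩ := Metric.eventually_nhds_iff.1 hb
  set r : ℝ := min (min (r₁ / 2) (r₂ / 2)) 1 with hr
  have hr0 : 0 < r := lt_min (lt_min (by positivity) (by positivity)) one_pos
  have hrr₁ : r ≤ r₁ / 2 := (min_le_left _ _).trans (min_le_left _ _)
  have hrr₂ : r ≤ r₂ / 2 := (min_le_left _ _).trans (min_le_right _ _)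
  refine ⟨Metric.ball x r, Metric.ball_mem_nhds x hr0, r / 2, ‖g x‖ + 1, n, by positivity, ?_,
    by positivity, fun w hw h1 h2 => ?_⟩
  · have := min_le_right (min (r₁ / 2) (r₂ / 2)) 1
    linarith
  · have hw1 : |w.re - x| < r := by
      have := Metric.mem_ball.1 hw
      rwa [Real.dist_eq] at this
    have hdist : dist w x < 2 * r := by
      rw [Complex.dist_eq]
      have e1 := Complex.norm_le_abs_re_add_abs_im (w - x)
      have e2 : (w - x).re = w.re - x := by simp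
      have e3 : (w - x).im = w.im := by simp
      rw [e2, e3, abs_of_neg h2] at e1
      linarith
    have hne : w - x ≠ 0 := by
      intro h
      have := congrArg Complex.im h
      simp at this
      linarith
    have hfw : ∀ z : ℂ, z - x ≠ 0 → f z = g z / (z - x) ^ n := by
      intro z hz
      rw [hg]
      simp only [smul_eq_mul]
      field_simp
    constructor
    · have h3 : DifferentiableAt ℂ (fun z => g z / (z - x) ^ n) w :=
        (hd (by linarith)).differentiableAt.div (by fun_prop) (pow_ne_zero _ hne)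
      refine h3.congr_of_eventuallyEq ?_
      have h4 : ∀ᶠ z : ℂ in 𝓝 w, z - x ≠ 0 := by
        have : ContinuousAt (fun z : ℂ => z - x) w := by fun_prop
        exact this.eventually_ne hne
      filter_upwards [h4] with z hz
      exact hfw z hz
    · rw [hfw w hne, norm_div, norm_pow]
      have h5 : -w.im ≤ ‖w - x‖ := by
        have e1 := Complex.abs_im_le_norm (w - x)
        have e3 : (w - x).im = w.im := by simp
        rw [e3, abs_of_neg h2] at e1
        exact e1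
      have h6 : 0 < -w.im := by linarith
      exact div_le_div₀ (by positivity) (hb (by linarith)).le (by positivity)
        (pow_le_pow_left₀ h6.le h5 n)

theorem sb_compact {f : ℂ → ℂ} {s : Set ℝ} (hs : IsCompact s) (h : ∀ x ∈ s, MeromorphicAt f (x : ℂ)) :
    SB f s := by
  refine hs.induction_on (SB.empty f) (fun _ _ => SB.mono) (fun _ _ => SB.union) fun x hx => ?_
  obtain ⟨t, ht, h1⟩ := sb_nhds (h x hx)
  exact ⟨t, mem_nhdsWithin_of_mem_nhds ht, h1⟩

/-- **the bound below the segment** -/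
theorem bf_of {f : ℂ → ℂ} (h : ∀ x ∈ Icc (0 : ℝ) 2, MeromorphicAt f (x : ℂ)) (h0 : AnalyticAt ℂ f 0) :
    ∃ (n : ℕ) (η B : ℝ), Bf (f 0) n η B f := by
  obtain ⟨η, C, n, a1, a2, a3, a4⟩ := sb_compact isCompact_Icc h
  have h1 : (fun w : ℂ => f w - f 0) =O[𝓝 0] (fun w : ℂ => w) := by
    have := h0.differentiableAt.hasDerivAt.isBigO_sub
    simpa using this
  obtain ⟨B₀, hB₀⟩ := h1.bound
  obtain ⟨δ, hδ, hB₀⟩ := Metric.eventually_nhds_iff.1 hB₀
  set B : ℝ := |B₀| + (C + ‖f 0‖) / δ ^ (n + 1) with hB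
  have hBn : 0 ≤ B := by positivity
  refine ⟨n, η, B, a1, hBn, fun w c1 c2 c3 c4 => (a4 w ⟨c1.le, c2⟩ c3 c4).1, fun w c1 c2 c3 c4 => ?_⟩
  obtain ⟨-, d1⟩ := a4 w ⟨c1.le, c2⟩ c3 c4
  have e1 : 0 < -w.im := by linarith
  have e2 : -w.im ≤ 1 := by linarith
  have e3 : 0 ≤ (‖w‖ / -w.im) ^ n := by positivity
  by_cases hw : ‖w‖ < δ
  · have h2 := hB₀ (show dist w 0 < δ by rwa [dist_zero_right])
    calc ‖f w - f 0‖ ≤ B₀ * ‖w‖ := h2
      _ ≤ B * ‖w‖ := by
        have h3 : B₀ ≤ B := (le_abs_self B₀).trans (le_add_of_nonneg_right (by positivity))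
        gcongr
      _ = B * ‖w‖ * 1 := by ring
      _ ≤ B * ‖w‖ * (1 + (‖w‖ / -w.im) ^ n) := by gcongr; linarith
  · push Not at hw
    have h3 : ‖f w - f 0‖ ≤ (C + ‖f 0‖) / (-w.im) ^ n := by
      refine (norm_sub_le _ _).trans ?_
      rw [add_div]
      refine add_le_add d1 ?_
      rw [le_div_iff₀ (by positivity)]
      have : (-w.im) ^ n ≤ 1 := pow_le_one₀ e1.le e2
      exact mul_le_of_le_one_right (norm_nonneg _) this
    have h4 : (C + ‖f 0‖) ≤ B * δ ^ (n + 1) := by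
      rw [hB, add_mul, div_mul_cancel₀ _ (by positivity)]
      have : 0 ≤ |B₀| * δ ^ (n + 1) := by positivity
      linarith
    calc ‖f w - f 0‖ ≤ (C + ‖f 0‖) / (-w.im) ^ n := h3
      _ ≤ B * δ ^ (n + 1) / (-w.im) ^ n := by gcongr
      _ ≤ B * ‖w‖ ^ (n + 1) / (-w.im) ^ n := by gcongr
      _ = B * ‖w‖ * (‖w‖ / -w.im) ^ n := by rw [div_pow, pow_succ]; ring
      _ ≤ B * ‖w‖ * (1 + (‖w‖ / -w.im) ^ n) := by gcongr; linarith

variable {ι : Type} {A : ℝ} {l : ι → ℝ} {c : ι → ℂ}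

/-- the rotated sum of a Dirichlet series at `s₀` -/
noncomputable def DS (l : ι → ℝ) (c : ι → ℂ) (s₀ : ℂ) (γ T : ℝ) : ℂ :=
  ∑' i, c i * exp (-(s₀ * l i)) * exp ((γ * (l i / T) : ℝ) * I) * (om (l i / T) : ℂ)

theorem DS_eq (l : ι → ℝ) (c : ι → ℂ) (s₀ : ℂ) (γ T : ℝ) : DS l c s₀ γ T = -RS l c s₀ γ T := by
  unfold DS RS
  rw [← tsum_neg]
  refine tsum_congr fun i => ?_
  unfold rt
  ring

/-- **Rotated summation at any point**: the value of the continuation, with the error `O(1/T)`. -/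
theorem GD.value (G : GD A l c) {f : ℂ → ℂ} (hf : ∀ s : ℂ, A < s.re → f s = sr l c s) {s₀ : ℂ}
    (hmer : ∀ x : ℝ, 0 ≤ x → s₀.re + x ≤ A → MeromorphicAt f (s₀ + x)) (han : AnalyticAt ℂ f s₀)
    {γ : ℝ} (hγ : Real.pi / 2 < γ) :
    (fun T : ℝ => DS l c s₀ γ T - f s₀) =O[atTop] (fun T : ℝ => 1 / T) := by
  have := G.cnt
  set M : ℝ := max 1 (A - s₀.re + 1) with hM
  have hM1 : 1 ≤ M := le_max_left _ _
  have hM0 : 0 < M := by linarith
  have hMA : A < s₀.re + M := by have := le_max_right 1 (A - s₀.re + 1); linarith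
  have hMc : (M : ℂ) ≠ 0 := by exact_mod_cast hM0.ne'
  set Φ : ℂ → ℂ := fun w => f (s₀ + M * w) with hΦ
  set l' : ι → ℝ := fun i => M * l i with hl'
  set c' : ι → ℂ := fun i => c i * exp (-(s₀ * l i)) with hc'
  have hsr : ∀ w, sr l' c' w = sr l c (s₀ + M * w) := by
    intro w
    unfold sr
    refine tsum_congr fun i => ?_
    rw [hc', hl']
    simp only
    rw [mul_assoc, ← Complex.exp_add]
    congr 2
    push_cast
    ring
  have hre : ∀ w : ℂ, (s₀ + M * w).re = s₀.re + M * w.re := fun w => by simp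
  have hr : ∀ w : ℂ, 1 < w.re → A < (s₀ + M * w).re := by
    intro w hw
    rw [hre]
    nlinarith
  have hcx : ∀ x : ℝ, (s₀ + M * (x : ℂ)) = s₀ + ((M * x : ℝ) : ℂ) := fun x => by push_cast; ring
  have hopen : IsOpen {z : ℂ | A < z.re} := isOpen_lt continuous_const Complex.continuous_re
  have hfan : ∀ s : ℂ, A < s.re → AnalyticAt ℂ f s := by
    intro s hs
    refine (G.sr_analytic hs).congr ?_
    filter_upwards [hopen.mem_nhds hs] with z hz
    exact (hf z hz).symm
  have hmΦ : ∀ x ∈ Icc (0 : ℝ) 2, MeromorphicAt Φ (x : ℂ) := by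
    intro x hx
    have h1 : MeromorphicAt f (s₀ + M * (x : ℂ)) := by
      by_cases h : s₀.re + M * x ≤ A
      · rw [hcx]
        exact hmer (M * x) (by have := hx.1; positivity) h
      · push Not at h
        exact (hfan (s₀ + M * (x : ℂ)) (by rw [hre]; simpa using h)).meromorphicAt
    exact h1.comp_analyticAt (f := f) (g := fun w => s₀ + M * w) (by fun_prop)
  have h0Φ : AnalyticAt ℂ Φ 0 := by
    refine AnalyticAt.fun_comp (g := f) (f := fun w => s₀ + M * w) ?_ (by fun_prop)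
    simpa using han
  obtain ⟨n, η, B, hBf⟩ := bf_of hmΦ h0Φ
  have D' : SD l' c' := by
    refine ⟨fun i => mul_nonneg hM0.le (G.nonneg i), ?_⟩
    have h1 := G.sum_tw (s₀ := s₀) (b := 2 * M) (by linarith)
    refine h1.congr fun i => ?_
    rw [hc', hl']
    simp only
    congr 2
    ring
  obtain ⟨C, T₀, hC, hT₀, h⟩ := sum_base D' hγ (Φ 0) n Φ η B hBf (fun w h1 _ _ => by
    rw [hΦ]
    simp only
    rw [hsr, hf _ (hr w (by rw [h1]; norm_num))])
  have hΦ0 : Φ 0 = f s₀ := by rw [hΦ]; simp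
  have hDS : ∀ T : ℝ, 0 < T → DS l c s₀ γ T = cm l' c' γ (M * T) := by
    intro T hT
    unfold DS cm
    refine tsum_congr fun i => ?_
    have e : l' i / (M * T) = l i / T := by rw [hl']; field_simp
    rw [e]
  refine Asymptotics.IsBigO.of_bound C ?_
  filter_upwards [eventually_ge_atTop T₀, eventually_gt_atTop (0 : ℝ)] with T hT hT0
  have hMT : T₀ ≤ M * T := by nlinarith
  have h1 := h (M * T) hMT
  rw [hDS T hT0, ← hΦ0]
  have e : ‖(1 / T : ℝ)‖ = 1 / T := by rw [Real.norm_eq_abs, abs_of_pos (by positivity)]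
  rw [e, ← div_eq_mul_one_div]
  have h2 : C / (M * T) ≤ C / T := by
    apply div_le_div_of_nonneg_left hC hT0
    nlinarith
  exact h1.trans h2

/-- the derived series -/
theorem GD.derived (G : GD A l c) (k : ℕ) : GD A l (fun i => (-(l i : ℂ)) ^ k * c i) where
  cnt := G.cnt
  nonneg := G.nonneg
  sum σ hσ := by
    set τ : ℝ := (A + σ) / 2 with hτ
    have h1 := G.sum τ (by linarith)
    have hpos : 0 < σ - τ := by rw [hτ]; linarith
    have h2 := h1.mul_left (k.factorial / (σ - τ) ^ k)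
    refine Summable.of_nonneg_of_le (fun i => by positivity) (fun i => ?_) h2
    rw [norm_mul, norm_pow, norm_neg, Complex.norm_real, Real.norm_eq_abs, abs_of_nonneg (G.nonneg i)]
    have h3 : l i ^ k ≤ k.factorial / (σ - τ) ^ k * Real.exp ((σ - τ) * l i) := by
      have h4 := Real.pow_div_factorial_le_exp ((σ - τ) * l i) (mul_nonneg hpos.le (G.nonneg i)) k
      rw [mul_pow, div_le_iff₀ (by positivity)] at h4
      rw [div_mul_eq_mul_div, le_div_iff₀ (by positivity)]
      linarith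
    have h5 : Real.exp (-(τ * l i)) = Real.exp ((σ - τ) * l i) * Real.exp (-(σ * l i)) := by
      rw [← Real.exp_add]
      congr 1
      ring
    calc l i ^ k * ‖c i‖ * Real.exp (-(σ * l i)) ≤
        (k.factorial / (σ - τ) ^ k * Real.exp ((σ - τ) * l i)) * ‖c i‖ * Real.exp (-(σ * l i)) := by
          gcongr
      _ = _ := by rw [h5]; ring

/-- the derivative of the series -/
theorem GD.deriv_sr (G : GD A l c) {s : ℂ} (hs : A < s.re) :
    deriv (sr l c) s = sr l (fun i => -(l i : ℂ) * c i) s := by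
  set σ : ℝ := (A + s.re) / 2 with hσ
  have hσ1 : A < σ := by rw [hσ]; linarith
  have hσw : σ < s.re := by rw [hσ]; linarith
  have hopen : IsOpen {z : ℂ | σ < z.re} := isOpen_lt continuous_const Complex.continuous_re
  have h1 := Complex.hasSum_deriv_of_summable_norm (F := fun i (z : ℂ) => c i * exp (-(z * l i)))
    (G.sum σ hσ1) (fun i => Differentiable.differentiableOn (by fun_prop)) hopen (fun i z hz => by
      rw [norm_mul, norm_exp_mul]
      refine mul_le_mul_of_nonneg_left ?_ (norm_nonneg _)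
      apply Real.exp_le_exp.2
      have hz' : σ < z.re := hz
      have := G.nonneg i
      nlinarith) hσw
  have h2 : ∀ i, _root_.deriv (fun z : ℂ => c i * exp (-(z * l i))) s =
      -(l i : ℂ) * c i * exp (-(s * l i)) := by
    intro i
    have h3 : HasDerivAt (fun z : ℂ => -(z * l i)) (-(1 * (l i : ℂ))) s :=
      ((hasDerivAt_id s).mul_const _).neg
    rw [(h3.cexp.const_mul (c i)).deriv]
    ring
  simp only [h2] at h1
  exact h1.tsum_eq.symm

/-- the iterated derivatives of the series -/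
theorem GD.iterated (G : GD A l c) {f : ℂ → ℂ} (hf : ∀ s : ℂ, A < s.re → f s = sr l c s) (k : ℕ) :
    ∀ s : ℂ, A < s.re → iteratedDeriv k f s = sr l (fun i => (-(l i : ℂ)) ^ k * c i) s := by
  induction k with
  | zero =>
    intro s hs
    rw [iteratedDeriv_zero, hf s hs]
    simp
  | succ k ih =>
    intro s hs
    rw [iteratedDeriv_succ]
    have hopen : IsOpen {z : ℂ | A < z.re} := isOpen_lt continuous_const Complex.continuous_re
    have h1 : iteratedDeriv k f =ᶠ[𝓝 s] sr l (fun i => (-(l i : ℂ)) ^ k * c i) := by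
      filter_upwards [hopen.mem_nhds hs] with z hz
      exact ih z hz
    rw [h1.deriv_eq, (G.derived k).deriv_sr hs]
    unfold sr
    refine tsum_congr fun i => ?_
    simp only [pow_succ]
    ring

/-- **Rotated summation at any point, all derivatives** -/
theorem GD.value_deriv (G : GD A l c) {f : ℂ → ℂ} (hf : ∀ s : ℂ, A < s.re → f s = sr l c s) {s₀ : ℂ}
    (hmer : ∀ x : ℝ, 0 ≤ x → s₀.re + x ≤ A → MeromorphicAt f (s₀ + x)) (han : AnalyticAt ℂ f s₀)
    {γ : ℝ} (hγ : Real.pi / 2 < γ) (k : ℕ) :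
    (fun T : ℝ => DS l (fun i => (-(l i : ℂ)) ^ k * c i) s₀ γ T - iteratedDeriv k f s₀) =O[atTop]
      (fun T : ℝ => 1 / T) := by
  refine (G.derived k).value (G.iterated hf k) (fun x hx0 hx1 => ?_) ?_ hγ
  · have h1 := hmer x hx0 hx1
    clear han
    induction k with
    | zero => rw [iteratedDeriv_zero]; exact h1
    | succ k ih => rw [iteratedDeriv_succ]; exact ih.deriv
  · clear hmer
    induction k with
    | zero => rw [iteratedDeriv_zero]; exact han
    | succ k ih => rw [iteratedDeriv_succ]; exact ih.deriv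

/-- absolute convergence -/
theorem GD.ds_summable (G : GD A l c) (s₀ : ℂ) (γ : ℝ) {T : ℝ} (hT : 0 < T) :
    Summable fun i => ‖c i * exp (-(s₀ * l i)) * exp ((γ * (l i / T) : ℝ) * I) * (om (l i / T) : ℂ)‖ := by
  have h := G.rt_summable s₀ γ hT
  unfold rt at h
  simpa only [norm_neg] using h

end Pool.Agent.X156.GL
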