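import Pool.Agent.X156.GL.GR

/-!
# Smoothed equivariant L-functions with split places: derivatives of every order at `0` as limits of sums over primes
-/

set_option autoImplicit false
set_option linter.unusedSectionVars false

open Filter Topology Asymptotics
open IsDedekindDomain NumberField

namespace Pool.Agent.X156.GL.Theta

section defs
variable {K : Type} [Field K] [NumberField K] {G : Type} [CommGroup G] [Fintype G]

/-- `c` is multiplicative on the ideals prime to `𝔪`, and trivial on the ideals `(x)` with `x ≡ 1` modulo `𝔪` and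
`x` positive at the real embeddings outside of `R`. -/
structure IsClassMap (𝔪 : Ideal (𝓞 K)) (R : Finset (K →+* ℝ)) (c : Ideal (𝓞 K) → G) : Prop where
  mul : ∀ I J : Ideal (𝓞 K), IsCoprime I 𝔪 → IsCoprime J 𝔪 → c (I * J) = c I * c J
  ray : ∀ x : 𝓞 K, x ≠ 0 → x - 1 ∈ 𝔪 → (∀ σ : K →+* ℝ, σ ∉ R → 0 < σ (x : K)) → c (Ideal.span {x}) = 1

/-- The primes which do not divide `𝔪`. -/
abbrev Places (𝔪 : Ideal (𝓞 K)) : Type := {v : HeightOneSpectrum (𝓞 K) // IsCoprime v.asIdeal 𝔪}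

/-- The norm of a prime. -/
noncomputable def nv {𝔪 : Ideal (𝓞 K)} (v : Places 𝔪) : ℕ := Ideal.absNorm v.1.asIdeal

/-- The complex characters of the finite abelian group `G`. -/
abbrev Character (G : Type) [CommGroup G] : Type := AddChar (Additive G) ℂ

/-- The value `χ(g)`. -/
def value (χ : Character G) (g : G) : ℂ := χ (Additive.ofMul g)

/-- The function `f` on `G` is multiplied (convolution product) by `∏_{q ∈ l} (1 - Nq^(1-s) [c(q)])`. -/
noncomputable def smooth {𝔪 : Ideal (𝓞 K)} (c : Ideal (𝓞 K) → G) : List (Places 𝔪) → ℂ → (G → ℂ) → G → ℂ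
  | [], _, f => f
  | q :: l, s, f => fun g =>
      smooth c l s f g - (nv q : ℂ) ^ (1 - s) * smooth c l s f ((c q.1.asIdeal)⁻¹ * g)

open Classical in
/-- `∑_g Z_g(s) g⁻¹ ∈ ℂ[G]` is the equivariant `L`-function for `S` = the archimedean places, the primes dividing
`𝔪` and the primes in `V`, and for the set (list) of primes `l`: `∑_g χ(g) Z_g(s)` is the `L`-function
`∏_{v ∉ S} (1 - χ(c(v)) Nv^(-s))⁻¹ ∏_{q ∈ l} (1 - χ(c(q)) Nq^(1-s))` for `Re s > 1`, and the `Z_g` are continued to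
functions analytic on `ℂ - {1}` and meromorphic at `1`. -/
structure IsTheta (𝔪 : Ideal (𝓞 K)) (c : Ideal (𝓞 K) → G) (V : Finset (Places 𝔪)) (l : List (Places 𝔪))
    (Z : G → ℂ → ℂ) : Prop where
  prod : ∀ (χ : Character G) (s : ℂ), 1 < s.re → ∃ P : ℂ,
    HasProd (fun v : Places 𝔪 => if v ∈ V then 1 else (1 - value χ (c v.1.asIdeal) * (nv v : ℂ) ^ (-s))⁻¹) P ∧
    ∑ g, value χ g * Z g s = P * (l.map fun q => 1 - value χ (c q.1.asIdeal) * (nv q : ℂ) ^ (1 - s)).prod
  analytic : ∀ (g : G) (s : ℂ), s ≠ 1 → AnalyticAt ℂ (Z g) s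
  mero : ∀ g : G, MeromorphicAt (Z g) 1

open Classical in
/-- The term of the prime `v = x.1` and the exponent `k = x.2 + 1` in the coefficient of `g` in `𝒮(T)`. -/
noncomputable def term (𝔪 : Ideal (𝓞 K)) (c : Ideal (𝓞 K) → G) (γ T : ℝ) (g : G) (x : Places 𝔪 × ℕ) : ℂ :=
  if c (x.1.1.asIdeal ^ (x.2 + 1)) = g then
    Complex.exp ((γ * ((x.2 + 1) * Real.log (nv x.1) / T) : ℝ) * Complex.I) /
    (((x.2 + 1) * Real.Gamma (1 + (x.2 + 1) * Real.log (nv x.1) / T) : ℝ) : ℂ)
  else 0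

/-- The coefficient of `g` in
`𝒮(T) = ∑_v ∑_{k ≥ 1} exp(iγ k log Nv / T) / (k Γ(1 + k log Nv / T)) c(v)^k ∈ ℂ[G]`, `v` not dividing `𝔪`. -/
noncomputable def frobSum (𝔪 : Ideal (𝓞 K)) (c : Ideal (𝓞 K) → G) (γ T : ℝ) (g : G) : ℂ :=
  ∑' x, term 𝔪 c γ T g x

open Classical in
/-- The coefficient of `g` in the power `f^n` of an element `f` of the group ring `ℂ[G]`. -/
noncomputable def power (f : G → ℂ) : ℕ → G → ℂ
  | 0 => fun g => if g = 1 then 1 else 0
  | n + 1 => fun g => ∑ h, f h * power f n (h⁻¹ * g)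

/-- The coefficient of `g` in the exponential of an element `f` of the group ring `ℂ[G]`. -/
noncomputable def expCoeff (f : G → ℂ) (g : G) : ℂ := ∑' n : ℕ, power f n g / n.factorial

/-- The constant `Λ(γ) = ∫_0^∞ (e^{-t} - e^{iγt} / Γ(1 + t)) dt / t`. -/
noncomputable def Lambda (γ : ℝ) : ℂ := ∫ t in Set.Ioi (0 : ℝ),
  (Complex.exp (-(t : ℂ)) - Complex.exp ((γ * t : ℝ) * Complex.I) * ((Real.Gamma (1 + t))⁻¹ : ℝ)) / t

/-- The coefficient of `g` in
`∏_{v ∈ V} log Nv · (T e^(-Λ(γ)))^ρ · ∏_{q ∈ l} (1 - Nq [c(q)]) · exp 𝒮(T)`. -/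
noncomputable def approx (𝔪 : Ideal (𝓞 K)) (c : Ideal (𝓞 K) → G) (ρ : ℕ) (V : Finset (Places 𝔪))
    (l : List (Places 𝔪)) (γ T : ℝ) (g : G) : ℂ :=
  (∏ v ∈ V, (Real.log (nv v) : ℂ)) *
    smooth c l 0 (fun g => (T * Complex.exp (-Lambda γ)) ^ ρ * expCoeff (frobSum 𝔪 c γ T) g) g

end defs

open Pool.Agent.X287.ST

variable {K : Type} [Field K] [NumberField K] {G : Type} [CommGroup G] [Fintype G]
variable {𝔪 : Ideal (𝓞 K)} {c : Ideal (𝓞 K) → G}

theorem power_eq (f : G → ℂ) (n : ℕ) : power f n = pw f n := by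
  induction n with
  | zero => rfl
  | succ n ih =>
    funext g
    show ∑ h, f h * power f n (h⁻¹ * g) = ∑ h, f h * pw f n (h⁻¹ * g)
    rw [ih]

theorem expCoeff_eq (f : G → ℂ) (g : G) : expCoeff f g = gexp f g := by
  unfold expCoeff gexp
  exact tsum_congr fun n => by rw [power_eq]

theorem term_eq (γ T : ℝ) (g : G) (x : Places 𝔪 × ℕ) :
    term 𝔪 c γ T g x = Pool.Agent.X287.ST.term 𝔪 c 0 γ T g x := by
  unfold term Pool.Agent.X287.ST.term nv
  split_ifs
  · rw [neg_zero, Complex.cpow_zero, one_pow, one_mul]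
  · rfl

theorem frobSum_eq (γ T : ℝ) : frobSum 𝔪 c γ T = Sg 𝔪 c 0 γ T := by
  funext g
  exact tsum_congr fun x => term_eq γ T g x

theorem two_le_nv (v : Places 𝔪) : 2 ≤ nv v := (csys (G := Unit) 𝔪 (fun _ => 1) 1).two_le v

theorem value_mul (χ : Character G) (a b : G) : value χ (a * b) = value χ a * value χ b := by
  unfold value
  rw [ofMul_mul, AddChar.map_add_eq_mul]

theorem value_one (χ : Character G) : value χ 1 = 1 := by
  unfold value
  rw [ofMul_one, AddChar.map_zero_eq_one]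

/-- the characters of the smoothed function -/
theorem char_smooth (χ : Character G) (l : List (Places 𝔪)) (s : ℂ) (f : G → ℂ) :
    ∑ g, value χ g * smooth c l s f g =
      (∑ g, value χ g * f g) * (l.map fun q => 1 - value χ (c q.1.asIdeal) * (nv q : ℂ) ^ (1 - s)).prod := by
  induction l with
  | nil => simp [smooth]
  | cons q l ih =>
    have h1 : ∑ g, value χ g * smooth c l s f ((c q.1.asIdeal)⁻¹ * g) =
        value χ (c q.1.asIdeal) * ∑ g, value χ g * smooth c l s f g := by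
      rw [← Equiv.sum_comp (Equiv.mulLeft (c q.1.asIdeal)), Finset.mul_sum]
      refine Finset.sum_congr rfl fun g _ => ?_
      rw [Equiv.coe_mulLeft, value_mul, inv_mul_cancel_left]
      ring
    have h2 : ∑ g, value χ g * smooth c (q :: l) s f g = ∑ g, value χ g * smooth c l s f g -
        (nv q : ℂ) ^ (1 - s) * ∑ g, value χ g * smooth c l s f ((c q.1.asIdeal)⁻¹ * g) := by
      rw [Finset.mul_sum, ← Finset.sum_sub_distrib]
      refine Finset.sum_congr rfl fun g _ => ?_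
      simp only [smooth]
      ring
    rw [h2, h1, ih, List.map_cons, List.prod_cons]
    ring

theorem smooth_mul (l : List (Places 𝔪)) (s : ℂ) (f : G → ℂ) (a : ℂ) (g : G) :
    smooth c l s (fun g => a * f g) g = a * smooth c l s f g := by
  induction l generalizing g with
  | nil => rfl
  | cons q l ih =>
    simp only [smooth, ih]
    ring

theorem smooth_tendsto (l : List (Places 𝔪)) {f : ℂ → G → ℂ} {a : G → ℂ}
    (h : ∀ g, Tendsto (fun s => f s g) (𝓝[≠] 0) (𝓝 (a g))) (g : G) :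
    Tendsto (fun s => smooth c l s (f s) g) (𝓝[≠] 0) (𝓝 (smooth c l 0 a g)) := by
  induction l generalizing g with
  | nil => exact h g
  | cons q l ih =>
    simp only [smooth]
    have h1 : Tendsto (fun s : ℂ => (nv q : ℂ) ^ (1 - s)) (𝓝[≠] 0) (𝓝 ((nv q : ℂ) ^ (1 - (0 : ℂ)))) := by
      have h0 : (nv q : ℂ) ≠ 0 := by
        have := two_le_nv q
        exact_mod_cast (by omega)
      have h2 : ContinuousAt (fun s : ℂ => (nv q : ℂ) ^ (1 - s)) 0 := by
        refine ContinuousAt.const_cpow (by fun_prop) (Or.inl h0)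
      exact h2.tendsto.mono_left nhdsWithin_le_nhds
    exact (ih g).sub (h1.mul (ih _))

theorem smooth_isBigO (l : List (Places 𝔪)) (s : ℂ) {f : ℝ → G → ℂ} {a : G → ℂ}
    (h : ∀ g, (fun T => f T g - a g) =O[atTop] (fun T : ℝ => 1 / T)) (g : G) :
    (fun T => smooth c l s (f T) g - smooth c l s a g) =O[atTop] (fun T : ℝ => 1 / T) := by
  induction l generalizing g with
  | nil => exact h g
  | cons q l ih =>
    simp only [smooth]
    refine ((ih g).sub ((ih ((c q.1.asIdeal)⁻¹ * g)).const_mul_left ((nv q : ℂ) ^ (1 - s)))).congr_left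
      fun T => ?_
    ring

theorem smooth_real (l : List (Places 𝔪)) {a : G → ℂ} (h : ∀ g, (a g).im = 0) (g : G) :
    (smooth c l 0 a g).im = 0 := by
  induction l generalizing g with
  | nil => exact h g
  | cons q l ih =>
    simp only [smooth]
    rw [sub_zero, Complex.cpow_one]
    rw [Complex.sub_im, ih g, Complex.mul_im, ih, Complex.natCast_im]
    ring

theorem smooth_analytic (l : List (Places 𝔪)) {Z : G → ℂ → ℂ} {s : ℂ} (h : ∀ g, AnalyticAt ℂ (Z g) s)
    (g : G) : AnalyticAt ℂ (fun s => smooth c l s (fun g => Z g s) g) s := by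
  induction l generalizing g with
  | nil => exact h g
  | cons q l ih =>
    simp only [smooth]
    have h0 : (nv q : ℂ) ≠ 0 := by
      have := two_le_nv q
      exact_mod_cast (by omega)
    have h1 : AnalyticAt ℂ (fun s : ℂ => (nv q : ℂ) ^ (1 - s)) s := by
      have h2 : Differentiable ℂ (fun s : ℂ => (nv q : ℂ) ^ (1 - s)) := fun z =>
        DifferentiableAt.const_cpow (by fun_prop) (Or.inl h0)
      exact h2.analyticAt s
    exact (ih g).sub (h1.mul (ih _))

theorem smooth_mero (l : List (Places 𝔪)) {Z : G → ℂ → ℂ} {s : ℂ} (h : ∀ g, MeromorphicAt (Z g) s)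
    (g : G) : MeromorphicAt (fun s => smooth c l s (fun g => Z g s) g) s := by
  induction l generalizing g with
  | nil => exact h g
  | cons q l ih =>
    simp only [smooth]
    have h0 : (nv q : ℂ) ≠ 0 := by
      have := two_le_nv q
      exact_mod_cast (by omega)
    have h1 : AnalyticAt ℂ (fun s : ℂ => (nv q : ℂ) ^ (1 - s)) s := by
      have h2 : Differentiable ℂ (fun s : ℂ => (nv q : ℂ) ^ (1 - s)) := fun z =>
        DifferentiableAt.const_cpow (by fun_prop) (Or.inl h0)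
      exact h2.analyticAt s
    exact (ih g).sub (h1.meromorphicAt.mul (ih _))

/-- the Euler factors of the primes in `V` -/
noncomputable def Vf (V : Finset (Places 𝔪)) (s : ℂ) : ℂ := ∏ v ∈ V, (1 - (nv v : ℂ) ^ (-s))

theorem Vf_analytic (V : Finset (Places 𝔪)) (s : ℂ) : AnalyticAt ℂ (Vf V) s := by
  have h : Differentiable ℂ (Vf V) := by
    unfold Vf
    refine Differentiable.fun_finsetProd fun v _ => ?_
    have h0 : (nv v : ℂ) ≠ 0 := by
      have := two_le_nv v
      exact_mod_cast (by omega)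
    exact (differentiable_const _).sub fun z => DifferentiableAt.const_cpow (by fun_prop) (Or.inl h0)
  exact h.analyticAt s

theorem Vf_lim (V : Finset (Places 𝔪)) :
    Tendsto (fun s : ℂ => Vf V s / s ^ V.card) (𝓝[≠] 0) (𝓝 (∏ v ∈ V, (Real.log (nv v) : ℂ))) := by
  have h1 : ∀ v : Places 𝔪, Tendsto (fun s : ℂ => (1 - (nv v : ℂ) ^ (-s)) / s) (𝓝[≠] 0)
      (𝓝 (Real.log (nv v) : ℂ)) := by
    intro v
    have hv := two_le_nv v
    have h2 : HasDerivAt (fun s : ℂ => 1 - Complex.exp (-(s * Real.log (nv v)))) (Real.log (nv v) : ℂ) 0 := by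
      have h3 : HasDerivAt (fun s : ℂ => -(s * Real.log (nv v))) (-(1 * (Real.log (nv v) : ℂ))) 0 :=
        ((hasDerivAt_id (0 : ℂ)).mul_const _).neg
      have h4 := (h3.cexp).const_sub 1
      simpa using h4
    have h5 := h2.tendsto_slope
    refine h5.congr' ?_
    filter_upwards [self_mem_nhdsWithin] with s hs
    rw [slope_def_field, cpow_nat hv]
    simp
  have h2 := tendsto_finsetProd V fun v _ => h1 v
  refine h2.congr fun s => ?_
  unfold Vf
  rw [Finset.prod_div_distrib, Finset.prod_const]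

theorem norm_fac_lt {s : ℂ} (hs : 1 < s.re) (χ : Character G) (v : Places 𝔪) :
    ‖value χ (c v.1.asIdeal) * (nv v : ℂ) ^ (-s)‖ < 1 := by
  have hv := two_le_nv v
  have h1 : ‖value χ (c v.1.asIdeal)‖ = 1 := norm_chr χ _
  rw [norm_mul, h1, one_mul, Complex.norm_natCast_cpow_of_pos (by omega), Complex.neg_re]
  have h2 : (1 : ℝ) < nv v := by exact_mod_cast (by omega)
  exact Real.rpow_lt_one_of_one_lt_of_neg h2 (by linarith)

theorem fac_ne {s : ℂ} (hs : 1 < s.re) (χ : Character G) (v : Places 𝔪) :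
    1 - value χ (c v.1.asIdeal) * (nv v : ℂ) ^ (-s) ≠ 0 := by
  intro h
  have h1 := norm_fac_lt (c := c) hs χ v
  rw [← sub_eq_zero.1 h, norm_one] at h1
  exact lt_irrefl _ h1

/-- **the functions `Z_g` exist** -/
theorem isTheta_of {R : Finset (K →+* ℝ)} (h1 : 𝔪 ≠ ⊤) (hc : IsClassMapR 𝔪 R c) {V : Finset (Places 𝔪)}
    (hV : ∀ v ∈ V, c v.1.asIdeal = 1) (l : List (Places 𝔪)) {Z : G → ℂ → ℂ} (hZ : IsPZ 𝔪 c Z) :
    IsTheta 𝔪 c V l (fun g s => Vf V s * smooth c l s (fun g => Z g s) g) where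
  prod χ s hs := by
    classical
    have h2 := hasProd_L h1 hc.toClass χ hs fun σ => hZ.sum σ s hs
    set F : Places 𝔪 → ℂ := fun v => (1 - value χ (c v.1.asIdeal) * (nv v : ℂ) ^ (-s))⁻¹ with hF
    have e1 : Pool.Agent.X287.CR.fac (qq 𝔪) (al 𝔪 c (chr χ)) s = F := by
      funext v
      unfold Pool.Agent.X287.CR.fac al qq
      simp only [Finset.univ_unique, Finset.prod_const, Finset.card_singleton, pow_one]
      rfl
    rw [e1] at h2
    set H : Places 𝔪 → ℂ := fun v => if v ∈ V then 1 - value χ (c v.1.asIdeal) * (nv v : ℂ) ^ (-s) else 1 with hH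
    have h4 : HasProd H (∏ v ∈ V, H v) := hasProd_prod_of_ne_finset_one fun v hv => by
      rw [hH]
      simp only
      rw [if_neg hv]
    have h5 := h2.mul h4
    have e2 : (∏ v ∈ V, H v) = Vf V s := by
      unfold Vf
      refine Finset.prod_congr rfl fun v hv => ?_
      rw [hH]
      simp only
      rw [if_pos hv, hV v hv, value_one, one_mul]
    refine ⟨_, h5.congr_fun fun v => ?_, ?_⟩
    · rw [hF, hH]
      simp only
      split_ifs with hv
      · exact (inv_mul_cancel₀ (fac_ne hs χ v)).symm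
      · rw [mul_one]
    · rw [e2]
      have h6 := char_smooth (c := c) χ l s (fun g => Z g s)
      have h7 : ∑ g, value χ g * (Vf V s * smooth c l s (fun g => Z g s) g) =
          Vf V s * ∑ g, value χ g * smooth c l s (fun g => Z g s) g := by
        rw [Finset.mul_sum]
        exact Finset.sum_congr rfl fun g _ => by ring
      rw [h7, h6]
      have h8 : ∑ g, value χ g * Z g s = ∑ σ, chr χ σ * Z σ s := rfl
      rw [h8]
      ring
  analytic g s hs := (Vf_analytic V s).mul (smooth_analytic l (fun g => hZ.an g s hs) g)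
  mero g := (Vf_analytic V 1).meromorphicAt.mul (smooth_mero l (fun g => hZ.mer g) g)

/-- **uniqueness** -/
theorem isTheta_unique {V : Finset (Places 𝔪)} {l : List (Places 𝔪)} {Z Z' : G → ℂ → ℂ}
    (h : IsTheta 𝔪 c V l Z) (h' : IsTheta 𝔪 c V l Z') (g : G) {s : ℂ} (hs : s ≠ 1) : Z g s = Z' g s := by
  have hpre : IsPreconnected ({1}ᶜ : Set ℂ) := by
    refine (isConnected_compl_singleton_of_one_lt_rank ?_ 1).isPreconnected
    rw [Complex.rank_real_complex]
    norm_num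
  have h2 : AnalyticOnNhd ℂ (Z g) {1}ᶜ := fun z hz => h.analytic g z hz
  have h3 : AnalyticOnNhd ℂ (Z' g) {1}ᶜ := fun z hz => h'.analytic g z hz
  have h4 : Z g =ᶠ[𝓝 (2 : ℂ)] Z' g := by
    have hopen : IsOpen {z : ℂ | 1 < z.re} := isOpen_lt continuous_const Complex.continuous_re
    filter_upwards [hopen.mem_nhds (show (2 : ℂ) ∈ {z : ℂ | 1 < z.re} by simp)] with z hz
    have h5 : ∀ χ : AddChar (Additive G) ℂ, ∑ σ, chr χ σ * Z σ z = ∑ σ, chr χ σ * Z' σ z := by
      intro χ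
      obtain ⟨P, hP, hP2⟩ := h.prod χ z hz
      obtain ⟨P', hP', hP2'⟩ := h'.prod χ z hz
      have h6 : P = P' := hP.unique hP'
      have e1 : ∑ σ, chr χ σ * Z σ z = ∑ g, value χ g * Z g z := rfl
      have e2 : ∑ σ, chr χ σ * Z' σ z = ∑ g, value χ g * Z' g z := rfl
      rw [e1, e2, hP2, hP2', h6]
    have h6 := inversion (fun σ => Z σ z) g
    have h7 := inversion (fun σ => Z' σ z) g
    simp only [h5] at h6
    have hc0 : (Fintype.card G : ℂ) ≠ 0 := by exact_mod_cast Fintype.card_ne_zero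
    exact mul_left_cancel₀ hc0 (h6.trans h7.symm)
  exact h2.eqOn_of_preconnected_of_eventuallyEq h3 hpre (z₀ := (2 : ℂ)) (by simp) h4 hs

/-- absolute convergence -/
theorem term_summable {R : Finset (K →+* ℝ)} (hc : IsClassMapR 𝔪 R c) (γ : ℝ) {T : ℝ} (hT : 0 < T) (g : G) :
    Summable fun x => ‖term 𝔪 c γ T g x‖ := by
  have h := Pool.Agent.X287.ST.term_summable hc.toClass (s₀ := 0) (by simp) γ hT g
  refine h.congr fun x => ?_
  rw [term_eq]

/-- **the limit formula** -/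
theorem main {R : Finset (K →+* ℝ)} (h1 : 𝔪 ≠ ⊤) (h0 : 𝔪 ≠ ⊥) (hc : IsClassMapR 𝔪 R c)
    {V : Finset (Places 𝔪)} (hV : ∀ v ∈ V, c v.1.asIdeal = 1) (l : List (Places 𝔪)) {γ : ℝ}
    (hγ : Real.pi / 2 < γ) {Z : G → ℂ → ℂ} (hZ : IsTheta 𝔪 c V l Z) :
    ∃ θ : G → ℝ, (∀ g, Tendsto (fun s : ℂ => Z g s /
        s ^ (R.card + InfinitePlace.nrComplexPlaces K + V.card)) (𝓝[≠] 0) (𝓝 (θ g : ℂ))) ∧
      ∀ g, (fun T : ℝ => approx 𝔪 c (R.card + InfinitePlace.nrComplexPlaces K) V l γ T g - θ g) =O[atTop]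
        (fun T : ℝ => 1 / T) := by
  obtain ⟨Z₀, hZ₀, -⟩ := exists_PZ_ord h1 h0 hc
  obtain ⟨a, ha, hrate⟩ := main_r h1 h0 hc hZ₀ hγ
  set ρ := R.card + InfinitePlace.nrComplexPlaces K with hρ
  have hreal : ∀ g, (a g).im = 0 := fun g => lim_real h1 hZ₀ g (ha g)
  set P : ℂ := ∏ v ∈ V, (Real.log (nv v) : ℂ) with hP
  have hPr : P = ((∏ v ∈ V, Real.log (nv v) : ℝ) : ℂ) := by rw [hP]; push_cast; rfl
  have hsr : ∀ g, (smooth c l 0 a g).im = 0 := smooth_real l hreal
  have hθ : ∀ g, P * smooth c l 0 a g = ((P * smooth c l 0 a g).re : ℂ) := by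
    intro g
    refine (Complex.conj_eq_iff_re.1 (Complex.conj_eq_iff_im.2 ?_)).symm
    rw [hPr, Complex.mul_im, hsr g, Complex.ofReal_im]
    ring
  refine ⟨fun g => (P * smooth c l 0 a g).re, fun g => ?_, fun g => ?_⟩
  · rw [← hθ g]
    have h2 := (Vf_lim V).mul (smooth_tendsto (c := c) l (f := fun s g => s⁻¹ ^ ρ * Z₀ g s) (a := a)
      (fun g => (ha g).congr fun s => by rw [inv_pow, div_eq_mul_inv, mul_comm]) g)
    refine h2.congr' ?_
    have hev : ∀ᶠ s : ℂ in 𝓝 0, s ≠ 1 := isOpen_ne.mem_nhds (by norm_num)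
    filter_upwards [hev.filter_mono nhdsWithin_le_nhds, self_mem_nhdsWithin] with s hs hs0
    have hs0' : s ≠ 0 := hs0
    have e1 : s ^ (ρ + V.card) = s ^ ρ * s ^ V.card := pow_add _ _ _
    have e2 : s ^ ρ ≠ 0 := pow_ne_zero _ hs0'
    have e3 : s ^ V.card ≠ 0 := pow_ne_zero _ hs0'
    rw [isTheta_unique hZ (isTheta_of h1 hc hV l hZ₀) g hs, smooth_mul, e1, inv_pow]
    generalize s ^ ρ = x at e2 ⊢
    generalize s ^ V.card = y at e3 ⊢
    field_simp
  · rw [← hθ g]
    unfold approx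
    have h3 := smooth_isBigO (c := c) l 0 (f := fun T g => (T * Complex.exp (-Lambda γ)) ^ ρ *
      expCoeff (frobSum 𝔪 c γ T) g) (a := a) (fun g => by
        refine (hrate g).congr_left fun T => ?_
        unfold sc
        rw [zpow_natCast, frobSum_eq, expCoeff_eq]
        rfl) g
    refine (h3.const_mul_left P).congr_left fun T => ?_
    ring

/-- **approach to a discrete set** -/
theorem approach_iff {θ : G → ℂ} {a : ℝ → G → ℂ}
    (h : ∀ g, (fun T : ℝ => a T g - θ g) =O[atTop] (fun T : ℝ => 1 / T)) (L : Set (G → ℂ)) :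
    (θ ∈ L ↔ ∃ f ∈ L, ∀ g, (fun T : ℝ => a T g - f g) =O[atTop] (fun T : ℝ => 1 / T)) ∧
    ((∀ B : ℝ, {f : G → ℂ | f ∈ L ∧ ∀ g, ‖f g‖ ≤ B}.Finite) →
      (θ ∈ L ↔ ∀ ε > 0, ∀ T₀ : ℝ, ∃ T ≥ T₀, ∃ f ∈ L, ∀ g, ‖a T g - f g‖ < ε)) := by
  classical
  have h0T : Tendsto (fun T : ℝ => 1 / T) atTop (𝓝 (0 : ℝ)) :=
    tendsto_const_nhds.div_atTop tendsto_id
  have hev : ∀ δ : ℝ, 0 < δ → ∃ T₀ : ℝ, ∀ T ≥ T₀, ∀ g, ‖a T g - θ g‖ < δ := by
    intro δ hδ
    have h3 : ∀ᶠ T : ℝ in atTop, ∀ g, ‖a T g - θ g‖ < δ := by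
      rw [eventually_all]
      intro g
      have h4 := ((h g).trans_tendsto h0T).norm
      rw [norm_zero] at h4
      exact h4.eventually_lt_const hδ
    exact eventually_atTop.1 h3
  refine ⟨⟨fun hθ => ⟨θ, hθ, h⟩, ?_⟩, fun hL => ⟨fun hθ ε hε T₀ => ?_, fun hA => ?_⟩⟩
  · rintro ⟨f, hf, hf2⟩
    have h5 : θ = f := by
      funext g
      have h6 : Tendsto (fun _ : ℝ => f g - θ g) atTop (𝓝 0) := by
        have h7 := ((h g).sub (hf2 g)).trans_tendsto h0T
        refine h7.congr fun T => ?_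
        ring
      have h8 := tendsto_nhds_unique h6 tendsto_const_nhds
      linear_combination h8
    rw [h5]
    exact hf
  · obtain ⟨T₁, hT₁⟩ := hev ε hε
    exact ⟨max T₀ T₁, le_max_left _ _, θ, hθ, hT₁ _ (le_max_right _ _)⟩
  · have hclose : ∀ δ : ℝ, 0 < δ → ∃ f ∈ L, ∀ g, ‖θ g - f g‖ < δ := by
      intro δ hδ
      obtain ⟨T₀, hT₀⟩ := hev (δ / 2) (by positivity)
      obtain ⟨T, hT, f, hf, h5⟩ := hA (δ / 2) (by positivity) T₀
      refine ⟨f, hf, fun g => ?_⟩
      have h6 : θ g - f g = (a T g - f g) - (a T g - θ g) := by ring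
      rw [h6]
      calc _ ≤ ‖a T g - f g‖ + ‖a T g - θ g‖ := norm_sub_le _ _
        _ < δ := by
          have := h5 g
          have := hT₀ T hT g
          linarith
    set B : ℝ := ∑ g, ‖θ g‖ + 1 with hB
    set A : Set (G → ℂ) := {f : G → ℂ | f ∈ L ∧ ∀ g, ‖f g‖ ≤ B} with hAdef
    have hAf : A.Finite := hL B
    by_contra hθ
    -- the distance to the finitely many candidates
    have hpos : ∀ f ∈ A, ∃ g, 0 < ‖θ g - f g‖ := by
      intro f hf
      by_contra hcon
      push Not at hcon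
      apply hθ
      have : θ = f := funext fun g => sub_eq_zero.1 (norm_le_zero_iff.1 (hcon g))
      rw [this]
      exact hf.1
    choose! gg hgg using hpos
    obtain ⟨δ, hδ0, hδ1, hδ⟩ : ∃ δ : ℝ, 0 < δ ∧ δ ≤ 1 ∧ ∀ f ∈ A, δ ≤ ‖θ (gg f) - f (gg f)‖ := by
      by_cases hne : A.Nonempty
      · obtain ⟨f₀, hf₀, hmin⟩ := Set.exists_min_image A (fun f => ‖θ (gg f) - f (gg f)‖) hAf hne
        exact ⟨min 1 ‖θ (gg f₀) - f₀ (gg f₀)‖, lt_min one_pos (hgg f₀ hf₀), min_le_left _ _,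
          fun f hf => (min_le_right _ _).trans (hmin f hf)⟩
      · exact ⟨1, one_pos, le_rfl, fun f hf => absurd ⟨f, hf⟩ hne⟩
    obtain ⟨f, hf, hf2⟩ := hclose δ hδ0
    have hfA : f ∈ A := by
      refine ⟨hf, fun g => ?_⟩
      have h7 : ‖f g‖ ≤ ‖θ g - f g‖ + ‖θ g‖ := by
        calc ‖f g‖ = ‖θ g - (θ g - f g)‖ := by congr 1; ring
          _ ≤ ‖θ g‖ + ‖θ g - f g‖ := norm_sub_le _ _
          _ = _ := by ring
      have h9 : ‖θ g‖ ≤ ∑ g, ‖θ g‖ :=
        Finset.single_le_sum (f := fun g => ‖θ g‖) (fun _ _ => norm_nonneg _) (Finset.mem_univ g)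
      have := (hf2 g).le
      rw [hB]
      linarith
    exact absurd (hf2 (gg f)) (not_lt.2 (hδ f hfA))

end Pool.Agent.X156.GL.Theta
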